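import Mathlib

/-! # A lattice graph for a CNF formula

`hC`, `vC`: costs of the unit edges of the lattice `ℕ × ℕ`
(0 = forced, 2 = optional, 4 = absent), for a formula coded by the list `s` of its subcolumns and
`2 * M + 1` rows of variables.  `x` grows to the right, `y` grows downwards.  All vertices have
`1 ≤ x` and `1 ≤ y`.

Columns: `x = 1, 2, 3, 4` left end, `x = 5 + 4 * k + j` (`j < 4`) subcolumn `k < s.length`,
`x = 5 + 4 * s.length + j` (`j < 3`) right end.
Lines: `y = 1, 2` rings of the clauses, `y = 3` top strand, `y = 4 + 6 * i + r` (`r < 6`) row `i`: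
strands on the lines `r = 1, 3, 5`, clusters on the lines `r = 0, 2, 4`. -/

namespace Pool.Agent.Helper52.Grid

/-- formulas in conjunctive normal form: lists of clauses, a clause is a list of literals -/
abbrev CNF := List (List (ℕ × Bool))

/-- satisfaction -/
def CNF.Sat (φ : CNF) (a : ℕ → Bool) : Prop := ∀ c ∈ φ, ∃ l ∈ c, a l.1 = l.2

/-- subcolumns: `none` = start of a clause, `some (i, d)` = a block in row `i`, docked if `d` -/
abbrev Sub := Option (ℕ × Bool)

/-- subcolumns of a clause -/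
def clSubs (c : List (ℕ × Bool)) : List Sub :=
  none :: c.flatMap (fun l => [some (l.1, l.2), some (l.1, !l.2)])

/-- the list of the subcolumns of a formula -/
def subs (φ : CNF) : List Sub := φ.flatMap clSubs

/-- the `k`-th subcolumn (`none` outside) -/
def sg (s : List Sub) (k : ℕ) : Sub := s.getD k none

/-- is the subcolumn docked -/
def dock : Sub → Bool
  | some (_, true) => true
  | _ => false

/-- kinds of cells -/
inductive Kind | plain | cross | blk | dblk
  deriving DecidableEq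

/-- the kind of the cell of row `i` in a subcolumn -/
def kind (o : Sub) (i : ℕ) : Kind :=
  match o with
  | none => .plain
  | some (v, b) => if i = v then (if b then .dblk else .blk)
      else if b = true ∧ i < v then .cross else .plain

/-- horizontal costs inside a cell: the edge from column `j` to column `j + 1` on line `r` -/
def hCell : Kind → ℕ → ℕ → ℕ
  | .plain, 1, _ => 0
  | .plain, 3, _ => 0
  | .plain, 5, _ => 0
  | .cross, 0, 1 => 0
  | .cross, 1, 1 => 2
  | .cross, 1, _ => 0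
  | .cross, 2, 1 => 0
  | .cross, 3, 1 => 2
  | .cross, 3, _ => 0
  | .cross, 4, 1 => 0
  | .cross, 5, 1 => 2
  | .cross, 5, _ => 0
  | .dblk, 0, 1 => 0
  | .dblk, 1, 1 => 2
  | .dblk, 1, _ => 0
  | .dblk, 2, 0 => 0
  | .dblk, 2, 2 => 0
  | .dblk, 3, 1 => 2
  | .dblk, 3, 3 => 0
  | .dblk, 5, 1 => 4
  | .dblk, 5, _ => 0
  | .blk, 1, 1 => 2
  | .blk, 1, _ => 0
  | .blk, 2, 0 => 0
  | .blk, 2, 2 => 0
  | .blk, 3, 1 => 2
  | .blk, 3, 3 => 0
  | .blk, 5, 1 => 4
  | .blk, 5, _ => 0
  | _, _, _ => 4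

/-- vertical costs inside a cell: the edge from line `r` to line `r + 1` in column `j` -/
def vCell : Kind → ℕ → ℕ → ℕ
  | .cross, _, 1 => 2
  | .cross, _, 2 => 2
  | .dblk, 0, 1 => 2
  | .dblk, 0, 2 => 2
  | .dblk, 1, 1 => 2
  | .dblk, 1, 2 => 2
  | .dblk, 2, 0 => 0
  | .dblk, 2, 1 => 2
  | .dblk, 2, 2 => 2
  | .dblk, 2, 3 => 0
  | .dblk, 3, 1 => 0
  | .dblk, 3, 2 => 0
  | .dblk, 4, 1 => 0
  | .dblk, 4, 2 => 0
  | .blk, 1, 1 => 2
  | .blk, 1, 2 => 2
  | .blk, 2, 0 => 0
  | .blk, 2, 1 => 2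
  | .blk, 2, 2 => 2
  | .blk, 2, 3 => 0
  | .blk, 3, 1 => 0
  | .blk, 3, 2 => 0
  | .blk, 4, 1 => 0
  | .blk, 4, 2 => 0
  | _, _, _ => 4

/-- horizontal costs at the left end (`x < 5`), row `i`, line `r` -/
def hL (M i r x : ℕ) : ℕ :=
  match r, x with
  | 1, 3 => 0
  | 1, 4 => 0
  | 3, 3 => 2
  | 3, 4 => 0
  | 4, 1 => if i = 2 * M then 0 else 4
  | 4, 2 => 0
  | 4, 3 => 2
  | 5, 4 => 0
  | _, _ => 4

/-- vertical costs at the left end -/
def vL (M i r x : ℕ) : ℕ :=
  match x with
  | 1 => if i < 2 * M ∨ r < 4 then 0 else 4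
  | 2 => if i % 2 = 0 then (if i < 2 * M ∧ 4 ≤ r then 0 else 4) else (if r < 4 then 0 else 4)
  | 3 => match r with
    | 1 => 0
    | 2 => 0
    | 3 => 2
    | _ => 4
  | 4 => match r with
    | 3 => 2
    | 4 => 0
    | _ => 4
  | _ => 4

/-- horizontal costs at the right end (`x` counted from the end of the cells) -/
def hR (r x : ℕ) : ℕ :=
  match r, x with
  | 1, 0 => 0
  | 3, 0 => 2
  | 4, 0 => 2
  | 4, 1 => 0
  | _, _ => 4

/-- vertical costs at the right end -/
def vR (i r x : ℕ) : ℕ :=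
  match x with
  | 0 => match r with
    | 3 => 2
    | 4 => 0
    | _ => 4
  | 1 => match r with
    | 1 => 0
    | 2 => 0
    | 3 => 2
    | _ => 4
  | 2 => if i % 2 = 0 then (if r < 4 then 0 else 4) else (if 4 ≤ r then 0 else 4)
  | _ => 4

/-- horizontal costs above the rows: `y = 1, 2` rings of the clauses, `y = 3` top strand -/
def hT (s : List Sub) (x y : ℕ) : ℕ :=
  if x < 5 then (if y = 3 ∧ 1 ≤ x then 0 else 4)
  else if x < 5 + 4 * s.length then
    (if y = 3 then (if (x - 5) % 4 = 1 ∧ dock (sg s ((x - 5) / 4)) = true then 2 else 0)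
    else if y = 0 then 4
    else if (x - 5) % 4 = 3 ∧ sg s ((x - 5) / 4 + 1) = none then 4
    else if y = 2 ∧ (x - 5) % 4 = 1 ∧ dock (sg s ((x - 5) / 4)) = true then 2
    else 0)
  else (if y = 3 ∧ x < 7 + 4 * s.length then 0 else 4)

/-- vertical costs above the rows -/
def vT (s : List Sub) (x y : ℕ) : ℕ :=
  if x < 5 then (if y = 3 ∧ x = 1 then 0 else 4)
  else if x < 5 + 4 * s.length then
    (if y = 0 then 4
    else if y = 1 then
      (if (x - 5) % 4 = 0 ∧ sg s ((x - 5) / 4) = none then 0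
      else if (x - 5) % 4 = 3 ∧ sg s ((x - 5) / 4 + 1) = none then 0 else 4)
    else (if ((x - 5) % 4 = 1 ∨ (x - 5) % 4 = 2) ∧ dock (sg s ((x - 5) / 4)) = true then 2
      else 4))
  else (if y = 3 ∧ x = 7 + 4 * s.length then 0 else 4)

/-- cost of the edge from `(x, y)` to `(x + 1, y)` -/
def hC (s : List Sub) (M x y : ℕ) : ℕ :=
  if y < 4 then hT s x y
  else if (y - 4) / 6 < 2 * M + 1 then
    if x < 5 then hL M ((y - 4) / 6) ((y - 4) % 6) x
    else if x < 5 + 4 * s.length then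
      hCell (kind (sg s ((x - 5) / 4)) ((y - 4) / 6)) ((y - 4) % 6) ((x - 5) % 4)
    else hR ((y - 4) % 6) (x - (5 + 4 * s.length))
  else 4

/-- cost of the edge from `(x, y)` to `(x, y + 1)` -/
def vC (s : List Sub) (M x y : ℕ) : ℕ :=
  if y < 4 then vT s x y
  else if (y - 4) / 6 < 2 * M + 1 then
    if x < 5 then vL M ((y - 4) / 6) ((y - 4) % 6) x
    else if x < 5 + 4 * s.length then
      vCell (kind (sg s ((x - 5) / 4)) ((y - 4) / 6)) ((y - 4) % 6) ((x - 5) % 4)
    else vR ((y - 4) / 6) ((y - 4) % 6) (x - (5 + 4 * s.length))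
  else 4

/-! ## Tours of a lattice graph with costs `h`, `v` -/

/-- points of the lattice -/
abbrev Pt := ℕ × ℕ

/-- the vertices: end points of the forced edges (meant for `h 0 y = v x 0 = 4`) -/
def Vert (h v : ℕ → ℕ → ℕ) (a : Pt) : Prop :=
  h a.1 a.2 = 0 ∨ h (a.1 - 1) a.2 = 0 ∨ v a.1 a.2 = 0 ∨ v a.1 (a.2 - 1) = 0

/-- `b` is the right or the lower neighbour of `a`, and the edge has cost `t` -/
def Step (h v : ℕ → ℕ → ℕ) (t : ℕ) (a b : Pt) : Prop :=
  (b = (a.1 + 1, a.2) ∧ h a.1 a.2 = t) ∨ (b = (a.1, a.2 + 1) ∧ v a.1 a.2 = t)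

/-- `a`, `b` are joined by a lattice edge of cost `t` -/
def Edge (h v : ℕ → ℕ → ℕ) (t : ℕ) (a b : Pt) : Prop := Step h v t a b ∨ Step h v t b a

/-- `b` comes directly after `a` in the cyclic order `T` -/
def Next (T : List Pt) (a b : Pt) : Prop := ∃ l, T.IsRotated (a :: b :: l)

/-- `a`, `b` are neighbours in the cyclic order `T` -/
def Con (T : List Pt) (a b : Pt) : Prop := Next T a b ∨ Next T b a

/-- Hamiltonian cycles which use only forced and optional edges, and all forced edges -/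
structure Tour (h v : ℕ → ℕ → ℕ) (T : List Pt) : Prop where
  nodup : T.Nodup
  mem : ∀ a, a ∈ T ↔ Vert h v a
  edge : ∀ a b, Next T a b → Edge h v 0 a b ∨ Edge h v 2 a b
  forced : ∀ a b, Edge h v 0 a b → Con T a b

/-- What is used of a tour in the proofs: the sets `hU`, `vU` of the horizontal and vertical edges
used: `hU x y` for the edge from `(x, y)` to `(x + 1, y)`, `vU x y` for the edge from `(x, y)` to
`(x, y + 1)`. -/
structure Use (h v : ℕ → ℕ → ℕ) (hU vU : ℕ → ℕ → Bool) : Prop where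
  h0 : ∀ x y, h x y = 0 → hU x y = true
  h4 : ∀ x y, h x y ≠ 0 → h x y ≠ 2 → hU x y = false
  v0 : ∀ x y, v x y = 0 → vU x y = true
  v4 : ∀ x y, v x y ≠ 0 → v x y ≠ 2 → vU x y = false
  hV : ∀ x y, hU x y = true → Vert h v (x, y) ∧ Vert h v (x + 1, y)
  vV : ∀ x y, vU x y = true → Vert h v (x, y) ∧ Vert h v (x, y + 1)
  /-- among the four edges at a vertex exactly two are used -/
  deg : ∀ x y, Vert h v (x + 1, y + 1) →
    (hU (x + 1) (y + 1)).toNat + (hU x (y + 1)).toNat + (vU (x + 1) (y + 1)).toNat +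
      (vU (x + 1) y).toNat = 2
  /-- no proper closed part: a set which is closed under the used edges is empty or everything -/
  cut : ∀ S : Pt → Prop, (∀ x y, hU x y = true → (S (x, y) ↔ S (x + 1, y))) →
    (∀ x y, vU x y = true → (S (x, y) ↔ S (x, y + 1))) →
    ∀ a b, Vert h v a → Vert h v b → S a → S b

/-- the state of the block in row `i` and subcolumn `k`: is the edge `b2 b3` used -/
def sigma (vU : ℕ → ℕ → Bool) (i k : ℕ) : Bool := vU (6 + 4 * k) (6 + 6 * i)

/-- the number of blocks of row `i` before the subcolumn `k` -/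
def cnt (s : List Sub) (i k : ℕ) : ℕ :=
  ((s.take k).filter (fun o => decide ((o.map Prod.fst) = some i))).length

/-- the assignment determined by the states: the state of the first block -/
def Reads (s : List Sub) (vU : ℕ → ℕ → Bool) (a : ℕ → Bool) : Prop :=
  ∀ i k d, sg s k = some (i, d) → sigma vU i k = (a i == decide (cnt s i k % 2 = 0))

/-! ## Statements of the modules -/

/-- costs live on `1 ≤ x, y ≤ N` -/
structure Box (h v : ℕ → ℕ → ℕ) (N : ℕ) : Prop where
  hx : ∀ y, h 0 y = 4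
  hy : ∀ x, h x 0 = 4
  vx : ∀ y, v 0 y = 4
  vy : ∀ x, v x 0 = 4
  hN : ∀ x y, h x y ≠ 4 → x < N ∧ y ≤ N
  vN : ∀ x y, v x y ≠ 4 → x ≤ N ∧ y < N

/-- the sets of used edges are those of the cyclic order `T` -/
def Match (hU vU : ℕ → ℕ → Bool) (T : List Pt) : Prop :=
  (∀ x y, hU x y = true ↔ Con T (x, y) (x + 1, y)) ∧
    (∀ x y, vU x y = true ↔ Con T (x, y) (x, y + 1))

/-- (U1) from tours to used edges -/
def S_Use : Prop := ∀ (h v : ℕ → ℕ → ℕ) (N : ℕ) (T : List Pt), Box h v N → Tour h v T →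
  3 ≤ T.length → ∃ hU vU, Use h v hU vU ∧ Match hU vU T

/-- (U2) from used edges to tours: a finite connected 2-regular graph is a cycle -/
def S_UseConv : Prop := ∀ (h v : ℕ → ℕ → ℕ) (N : ℕ) (hU vU : ℕ → ℕ → Bool), Box h v N →
  (∃ a, Vert h v a) → Use h v hU vU → ∃ T, Tour h v T ∧ 3 ≤ T.length ∧ Match hU vU T

/-- (B) the costs of the formula graph live in a box -/
def S_Box : Prop := ∀ (s : List Sub) (M : ℕ), Box (hC s M) (vC s M) (8 + 4 * s.length + 12 * M + 10)

/-- (X) two consecutive blocks of a row are in different states -/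
def S_Xor : Prop := ∀ (s : List Sub) (M : ℕ) (hU vU : ℕ → ℕ → Bool),
  (∀ k i d, sg s k = some (i, d) → i < 2 * M + 1) → Use (hC s M) (vC s M) hU vU →
  ∀ i k k' d d', k < k' → sg s k = some (i, d) → sg s k' = some (i, d') →
    (∀ k'' d'', k < k'' → k'' < k' → sg s k'' ≠ some (i, d'')) →
    sigma vU i k ≠ sigma vU i k'

/-- (C) each clause (a maximal stretch of subcolumns behind a `none`) contains a docked subcolumn
whose block is in state `true` -/
def S_Clause : Prop := ∀ (s : List Sub) (M : ℕ) (hU vU : ℕ → ℕ → Bool),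
  (∀ k i d, sg s k = some (i, d) → i < 2 * M + 1) → Use (hC s M) (vC s M) hU vU →
  ∀ k n, sg s k = none → k < s.length → (∀ l, k < l → l ≤ k + n → sg s l ≠ none) →
    sg s (k + n + 1) = none →
    ∃ l i, k < l ∧ l ≤ k + n ∧ sg s l = some (i, true) ∧ sigma vU i l = true

/-- (S) soundness: the states are read off an assignment, and it satisfies the formula -/
def S_Sound : Prop := ∀ (φ : CNF) (M : ℕ) (hU vU : ℕ → ℕ → Bool),
  (∀ c ∈ φ, ∀ l ∈ c, l.1 < 2 * M + 1) → Use (hC (subs φ) M) (vC (subs φ) M) hU vU →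
  ∃ a, φ.Sat a ∧ Reads (subs φ) vU a

/-- choices for the docked subcolumns: `ch k` means that the block of the docked subcolumn `k`
visits its cluster -/
structure Choice (s : List Sub) (a : ℕ → Bool) (ch : ℕ → Bool) : Prop where
  /-- chosen subcolumns are docked and their blocks are in state `true` -/
  ok : ∀ k, ch k = true → ∃ i, sg s k = some (i, true) ∧ a i = decide (cnt s i k % 2 = 0)
  /-- in each clause exactly one subcolumn is chosen -/
  one : ∀ k n, sg s k = none → k < s.length → (∀ l, k < l → l ≤ k + n → sg s l ≠ none) →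
    sg s (k + n + 1) = none → ∃ l, (k < l ∧ l ≤ k + n ∧ ch l = true) ∧
      ∀ l', k < l' → l' ≤ k + n → ch l' = true → l' = l

/-- (K0) a satisfying assignment gives choices -/
def S_Choice : Prop := ∀ (φ : CNF) (a : ℕ → Bool), φ.Sat a → ∃ ch, Choice (subs φ) a ch

/-- state of a block in subcolumn `k` of row `i`, given the assignment -/
def bst (s : List Sub) (a : ℕ → Bool) (i k : ℕ) : Bool := a i == decide (cnt s i k % 2 = 0)

/-- used optional horizontal edges -/
def hO (s : List Sub) (a ch : ℕ → Bool) (x y : ℕ) : Bool :=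
  if y < 4 then (if y = 2 then !ch ((x - 5) / 4) else false)
  else if x < 5 then bst s a ((y - 4) / 6) 0
  else if x < 5 + 4 * s.length then
    (match kind (sg s ((x - 5) / 4)) ((y - 4) / 6), (y - 4) % 6 with
    | .dblk, 1 => bst s a ((y - 4) / 6) ((x - 5) / 4) && !ch ((x - 5) / 4)
    | .dblk, 3 => !bst s a ((y - 4) / 6) ((x - 5) / 4)
    | .blk, 1 => bst s a ((y - 4) / 6) ((x - 5) / 4)
    | .blk, 3 => !bst s a ((y - 4) / 6) ((x - 5) / 4)
    | _, _ => false)
  else !bst s a ((y - 4) / 6) s.length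

/-- used optional vertical edges -/
def vO (s : List Sub) (a ch : ℕ → Bool) (x y : ℕ) : Bool :=
  if y < 4 then (if y = 2 then ch ((x - 5) / 4) else !ch ((x - 5) / 4))
  else if x < 5 then !bst s a ((y - 4) / 6) 0
  else if x < 5 + 4 * s.length then
    (match kind (sg s ((x - 5) / 4)) ((y - 4) / 6), (y - 4) % 6 with
    | .cross, r => if r % 2 = 0 then ch ((x - 5) / 4) else !ch ((x - 5) / 4)
    | .dblk, 0 => ch ((x - 5) / 4)
    | _, 1 => !bst s a ((y - 4) / 6) ((x - 5) / 4)
    | _, _ => bst s a ((y - 4) / 6) ((x - 5) / 4))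
  else bst s a ((y - 4) / 6) s.length

/-- the used edges of the tour of an assignment -/
def hUse (s : List Sub) (M : ℕ) (a ch : ℕ → Bool) (x y : ℕ) : Bool :=
  if hC s M x y = 0 then true else if hC s M x y = 2 then hO s a ch x y else false

/-- the used edges of the tour of an assignment -/
def vUse (s : List Sub) (M : ℕ) (a ch : ℕ → Bool) (x y : ℕ) : Bool :=
  if vC s M x y = 0 then true else if vC s M x y = 2 then vO s a ch x y else false

/-- (K1) the local conditions -/
def S_Deg : Prop := ∀ (s : List Sub) (M : ℕ) (a ch : ℕ → Bool),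
  (∀ k i d, sg s k = some (i, d) → i < 2 * M + 1) → (0 < s.length → sg s 0 = none) →
  Choice s a ch →
  (∀ x y, hUse s M a ch x y = true → Vert (hC s M) (vC s M) (x, y) ∧
    Vert (hC s M) (vC s M) (x + 1, y)) ∧
  (∀ x y, vUse s M a ch x y = true → Vert (hC s M) (vC s M) (x, y) ∧
    Vert (hC s M) (vC s M) (x, y + 1)) ∧
  (∀ x y, Vert (hC s M) (vC s M) (x + 1, y + 1) →
    (hUse s M a ch (x + 1) (y + 1)).toNat + (hUse s M a ch x (y + 1)).toNat +
      (vUse s M a ch (x + 1) (y + 1)).toNat + (vUse s M a ch (x + 1) y).toNat = 2)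

/-- (K2) connectedness -/
def S_Conn : Prop := ∀ (s : List Sub) (M : ℕ) (a ch : ℕ → Bool),
  (∀ k i d, sg s k = some (i, d) → i < 2 * M + 1) → (0 < s.length → sg s 0 = none) →
  Choice s a ch → ∀ S : Pt → Prop,
    (∀ x y, hUse s M a ch x y = true → (S (x, y) ↔ S (x + 1, y))) →
    (∀ x y, vUse s M a ch x y = true → (S (x, y) ↔ S (x, y + 1))) →
    ∀ b, Vert (hC s M) (vC s M) b → (S b ↔ S (1, 3))

/-- (K) completeness: every satisfying assignment comes from a set of used edges -/
def S_Compl : Prop := ∀ (φ : CNF) (M : ℕ) (a : ℕ → Bool),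
  (∀ c ∈ φ, ∀ l ∈ c, l.1 < 2 * M + 1) → φ.Sat a →
  ∃ hU vU, Use (hC (subs φ) M) (vC (subs φ) M) hU vU ∧ Reads (subs φ) vU a

/-- the equations of `Helper52.Grid.dock`, made here once -/
theorem eqn_dock : True := by
  have h1 := @_root_.Pool.Agent.Helper52.Grid.dock.eq_1
  have h2 := @_root_.Pool.Agent.Helper52.Grid.dock.eq_2
  trivial

/-- the equations of `Helper52.Grid.hCell`, made here once -/
theorem eqn_hCell : True := by
  have h1 := @_root_.Pool.Agent.Helper52.Grid.hCell.eq_1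
  have h2 := @_root_.Pool.Agent.Helper52.Grid.hCell.eq_2
  have h3 := @_root_.Pool.Agent.Helper52.Grid.hCell.eq_3
  have h4 := @_root_.Pool.Agent.Helper52.Grid.hCell.eq_4
  have h5 := @_root_.Pool.Agent.Helper52.Grid.hCell.eq_5
  have h6 := @_root_.Pool.Agent.Helper52.Grid.hCell.eq_6
  have h7 := @_root_.Pool.Agent.Helper52.Grid.hCell.eq_7
  have h8 := @_root_.Pool.Agent.Helper52.Grid.hCell.eq_8
  have h9 := @_root_.Pool.Agent.Helper52.Grid.hCell.eq_9
  have h10 := @_root_.Pool.Agent.Helper52.Grid.hCell.eq_10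
  have h11 := @_root_.Pool.Agent.Helper52.Grid.hCell.eq_11
  have h12 := @_root_.Pool.Agent.Helper52.Grid.hCell.eq_12
  have h13 := @_root_.Pool.Agent.Helper52.Grid.hCell.eq_13
  have h14 := @_root_.Pool.Agent.Helper52.Grid.hCell.eq_14
  have h15 := @_root_.Pool.Agent.Helper52.Grid.hCell.eq_15
  have h16 := @_root_.Pool.Agent.Helper52.Grid.hCell.eq_16
  have h17 := @_root_.Pool.Agent.Helper52.Grid.hCell.eq_17
  have h18 := @_root_.Pool.Agent.Helper52.Grid.hCell.eq_18
  have h19 := @_root_.Pool.Agent.Helper52.Grid.hCell.eq_19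
  have h20 := @_root_.Pool.Agent.Helper52.Grid.hCell.eq_20
  have h21 := @_root_.Pool.Agent.Helper52.Grid.hCell.eq_21
  have h22 := @_root_.Pool.Agent.Helper52.Grid.hCell.eq_22
  have h23 := @_root_.Pool.Agent.Helper52.Grid.hCell.eq_23
  have h24 := @_root_.Pool.Agent.Helper52.Grid.hCell.eq_24
  have h25 := @_root_.Pool.Agent.Helper52.Grid.hCell.eq_25
  have h26 := @_root_.Pool.Agent.Helper52.Grid.hCell.eq_26
  have h27 := @_root_.Pool.Agent.Helper52.Grid.hCell.eq_27
  have h28 := @_root_.Pool.Agent.Helper52.Grid.hCell.eq_28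
  have h29 := @_root_.Pool.Agent.Helper52.Grid.hCell.eq_29
  have h30 := @_root_.Pool.Agent.Helper52.Grid.hCell.eq_30
  trivial

/-- the equations of `Helper52.Grid.hL`, made here once -/
theorem eqn_hL : True := by
  have h1 := @_root_.Pool.Agent.Helper52.Grid.hL.eq_1
  have h2 := @_root_.Pool.Agent.Helper52.Grid.hL.eq_2
  have h3 := @_root_.Pool.Agent.Helper52.Grid.hL.eq_3
  have h4 := @_root_.Pool.Agent.Helper52.Grid.hL.eq_4
  have h5 := @_root_.Pool.Agent.Helper52.Grid.hL.eq_5
  have h6 := @_root_.Pool.Agent.Helper52.Grid.hL.eq_6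
  have h7 := @_root_.Pool.Agent.Helper52.Grid.hL.eq_7
  have h8 := @_root_.Pool.Agent.Helper52.Grid.hL.eq_8
  have h9 := @_root_.Pool.Agent.Helper52.Grid.hL.eq_9
  trivial

/-- the equations of `Helper52.Grid.hR`, made here once -/
theorem eqn_hR : True := by
  have h1 := @_root_.Pool.Agent.Helper52.Grid.hR.eq_1
  have h2 := @_root_.Pool.Agent.Helper52.Grid.hR.eq_2
  have h3 := @_root_.Pool.Agent.Helper52.Grid.hR.eq_3
  have h4 := @_root_.Pool.Agent.Helper52.Grid.hR.eq_4
  have h5 := @_root_.Pool.Agent.Helper52.Grid.hR.eq_5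
  trivial

/-- the equations of `Helper52.Grid.vCell`, made here once -/
theorem eqn_vCell : True := by
  have h1 := @_root_.Pool.Agent.Helper52.Grid.vCell.eq_1
  have h2 := @_root_.Pool.Agent.Helper52.Grid.vCell.eq_2
  have h3 := @_root_.Pool.Agent.Helper52.Grid.vCell.eq_3
  have h4 := @_root_.Pool.Agent.Helper52.Grid.vCell.eq_4
  have h5 := @_root_.Pool.Agent.Helper52.Grid.vCell.eq_5
  have h6 := @_root_.Pool.Agent.Helper52.Grid.vCell.eq_6
  have h7 := @_root_.Pool.Agent.Helper52.Grid.vCell.eq_7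
  have h8 := @_root_.Pool.Agent.Helper52.Grid.vCell.eq_8
  have h9 := @_root_.Pool.Agent.Helper52.Grid.vCell.eq_9
  have h10 := @_root_.Pool.Agent.Helper52.Grid.vCell.eq_10
  have h11 := @_root_.Pool.Agent.Helper52.Grid.vCell.eq_11
  have h12 := @_root_.Pool.Agent.Helper52.Grid.vCell.eq_12
  have h13 := @_root_.Pool.Agent.Helper52.Grid.vCell.eq_13
  have h14 := @_root_.Pool.Agent.Helper52.Grid.vCell.eq_14
  have h15 := @_root_.Pool.Agent.Helper52.Grid.vCell.eq_15
  have h16 := @_root_.Pool.Agent.Helper52.Grid.vCell.eq_16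
  have h17 := @_root_.Pool.Agent.Helper52.Grid.vCell.eq_17
  have h18 := @_root_.Pool.Agent.Helper52.Grid.vCell.eq_18
  have h19 := @_root_.Pool.Agent.Helper52.Grid.vCell.eq_19
  have h20 := @_root_.Pool.Agent.Helper52.Grid.vCell.eq_20
  have h21 := @_root_.Pool.Agent.Helper52.Grid.vCell.eq_21
  have h22 := @_root_.Pool.Agent.Helper52.Grid.vCell.eq_22
  have h23 := @_root_.Pool.Agent.Helper52.Grid.vCell.eq_23
  have h24 := @_root_.Pool.Agent.Helper52.Grid.vCell.eq_24
  have h25 := @_root_.Pool.Agent.Helper52.Grid.vCell.eq_25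
  trivial

/-- the equations of `Helper52.Grid.vL`, made here once -/
theorem eqn_vL : True := by
  have h1 := @_root_.Pool.Agent.Helper52.Grid.vL.eq_1
  have h2 := @_root_.Pool.Agent.Helper52.Grid.vL.eq_2
  have h3 := @_root_.Pool.Agent.Helper52.Grid.vL.eq_3
  have h4 := @_root_.Pool.Agent.Helper52.Grid.vL.eq_4
  have h5 := @_root_.Pool.Agent.Helper52.Grid.vL.eq_5
  have h6 := @_root_.Pool.Agent.Helper52.Grid.vL.eq_6
  have h7 := @_root_.Pool.Agent.Helper52.Grid.vL.eq_7
  have h8 := @_root_.Pool.Agent.Helper52.Grid.vL.eq_8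
  have h9 := @_root_.Pool.Agent.Helper52.Grid.vL.eq_9
  have h10 := @_root_.Pool.Agent.Helper52.Grid.vL.eq_10
  trivial

/-- the equations of `Helper52.Grid.vR`, made here once -/
theorem eqn_vR : True := by
  have h1 := @_root_.Pool.Agent.Helper52.Grid.vR.eq_1
  have h2 := @_root_.Pool.Agent.Helper52.Grid.vR.eq_2
  have h3 := @_root_.Pool.Agent.Helper52.Grid.vR.eq_3
  have h4 := @_root_.Pool.Agent.Helper52.Grid.vR.eq_4
  have h5 := @_root_.Pool.Agent.Helper52.Grid.vR.eq_5
  have h6 := @_root_.Pool.Agent.Helper52.Grid.vR.eq_6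
  have h7 := @_root_.Pool.Agent.Helper52.Grid.vR.eq_7
  have h8 := @_root_.Pool.Agent.Helper52.Grid.vR.eq_8
  have h9 := @_root_.Pool.Agent.Helper52.Grid.vR.eq_9
  trivial

end Pool.Agent.Helper52.Grid
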