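import Mathlib
import Pool.Agent.Helper52.Grid.Defs

/-! Evaluation of the costs `hC`, `vC` and of `Vert`. -/

namespace Pool.Agent.Helper52.Grid

/-! ### coordinates -/

theorem col_cases (K x : ℕ) : x < 5 ∨ (∃ k j, k < K ∧ j < 4 ∧ x = 5 + 4 * k + j) ∨
    ∃ j, x = 5 + 4 * K + j := by
  rcases Nat.lt_or_ge x 5 with h | h
  · exact Or.inl h
  rcases Nat.lt_or_ge x (5 + 4 * K) with h' | h'
  · exact Or.inr (Or.inl ⟨(x - 5) / 4, (x - 5) % 4, by omega, by omega, by omega⟩)
  · exact Or.inr (Or.inr ⟨x - (5 + 4 * K), by omega⟩)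

theorem row_cases (y : ℕ) : y < 4 ∨ ∃ i r, r < 6 ∧ y = 4 + 6 * i + r := by
  rcases Nat.lt_or_ge y 4 with h | h
  · exact Or.inl h
  · exact Or.inr ⟨(y - 4) / 6, (y - 4) % 6, by omega, by omega⟩

theorem sg_of_le {s : List Sub} {k : ℕ} (h : s.length ≤ k) : sg s k = none := by
  unfold sg
  rw [List.getD_eq_getElem?_getD, List.getElem?_eq_none h]
  rfl

theorem lt_of_sg {s : List Sub} {k : ℕ} {o : ℕ × Bool} (h : sg s k = some o) : k < s.length := by
  by_contra hc
  rw [sg_of_le (by omega)] at h
  exact absurd h (by simp)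

/-! ### rows -/

section rows

variable {s : List Sub} {M x y k i r j : ℕ}

theorem hC_cell (hk : k < s.length) (hi : i < 2 * M + 1) (hr : r < 6) (hj : j < 4)
    (hx : x = 5 + 4 * k + j) (hy : y = 4 + 6 * i + r) :
    hC s M x y = hCell (kind (sg s k) i) r j := by
  subst hx hy
  unfold hC
  rw [if_neg (by omega), show (4 + 6 * i + r - 4) / 6 = i by omega,
    show (4 + 6 * i + r - 4) % 6 = r by omega, if_pos hi, if_neg (by omega), if_pos (by omega),
    show (5 + 4 * k + j - 5) / 4 = k by omega, show (5 + 4 * k + j - 5) % 4 = j by omega]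

theorem vC_cell (hk : k < s.length) (hi : i < 2 * M + 1) (hr : r < 6) (hj : j < 4)
    (hx : x = 5 + 4 * k + j) (hy : y = 4 + 6 * i + r) :
    vC s M x y = vCell (kind (sg s k) i) r j := by
  subst hx hy
  unfold vC
  rw [if_neg (by omega), show (4 + 6 * i + r - 4) / 6 = i by omega,
    show (4 + 6 * i + r - 4) % 6 = r by omega, if_pos hi, if_neg (by omega), if_pos (by omega),
    show (5 + 4 * k + j - 5) / 4 = k by omega, show (5 + 4 * k + j - 5) % 4 = j by omega]

theorem hC_left (hi : i < 2 * M + 1) (hr : r < 6) (hx : x < 5) (hy : y = 4 + 6 * i + r) :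
    hC s M x y = hL M i r x := by
  subst hy
  unfold hC
  rw [if_neg (by omega), show (4 + 6 * i + r - 4) / 6 = i by omega,
    show (4 + 6 * i + r - 4) % 6 = r by omega, if_pos hi, if_pos hx]

theorem vC_left (hi : i < 2 * M + 1) (hr : r < 6) (hx : x < 5) (hy : y = 4 + 6 * i + r) :
    vC s M x y = vL M i r x := by
  subst hy
  unfold vC
  rw [if_neg (by omega), show (4 + 6 * i + r - 4) / 6 = i by omega,
    show (4 + 6 * i + r - 4) % 6 = r by omega, if_pos hi, if_pos hx]

theorem hC_right (hi : i < 2 * M + 1) (hr : r < 6) (hx : x = 5 + 4 * s.length + j)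
    (hy : y = 4 + 6 * i + r) : hC s M x y = hR r j := by
  subst hx hy
  unfold hC
  rw [if_neg (by omega), show (4 + 6 * i + r - 4) / 6 = i by omega,
    show (4 + 6 * i + r - 4) % 6 = r by omega, if_pos hi, if_neg (by omega), if_neg (by omega),
    show 5 + 4 * s.length + j - (5 + 4 * s.length) = j by omega]

theorem vC_right (hi : i < 2 * M + 1) (hr : r < 6) (hx : x = 5 + 4 * s.length + j)
    (hy : y = 4 + 6 * i + r) : vC s M x y = vR i r j := by
  subst hx hy
  unfold vC
  rw [if_neg (by omega), show (4 + 6 * i + r - 4) / 6 = i by omega,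
    show (4 + 6 * i + r - 4) % 6 = r by omega, if_pos hi, if_neg (by omega), if_neg (by omega),
    show 5 + 4 * s.length + j - (5 + 4 * s.length) = j by omega]

theorem hC_bot (hi : 2 * M + 1 ≤ i) (hy : 4 + 6 * i ≤ y) : hC s M x y = 4 := by
  unfold hC
  rw [if_neg (by omega), if_neg (by omega)]

theorem vC_bot (hi : 2 * M + 1 ≤ i) (hy : 4 + 6 * i ≤ y) : vC s M x y = 4 := by
  unfold vC
  rw [if_neg (by omega), if_neg (by omega)]

/-! ### top -/

theorem hC_top (hy : y < 4) : hC s M x y = hT s x y := by
  unfold hC; rw [if_pos hy]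

theorem vC_top (hy : y < 4) : vC s M x y = vT s x y := by
  unfold vC; rw [if_pos hy]

theorem hC_topL (hy : y < 4) (hx : x < 5) : hC s M x y = if y = 3 ∧ 1 ≤ x then 0 else 4 := by
  rw [hC_top hy]; unfold hT; rw [if_pos hx]

theorem vC_topL (hy : y < 4) (hx : x < 5) : vC s M x y = if y = 3 ∧ x = 1 then 0 else 4 := by
  rw [vC_top hy]; unfold vT; rw [if_pos hx]

theorem hC_topR (hy : y < 4) (hx : x = 5 + 4 * s.length + j) :
    hC s M x y = if y = 3 ∧ j < 2 then 0 else 4 := by
  subst hx
  rw [hC_top hy]; unfold hT; rw [if_neg (by omega), if_neg (by omega)]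
  congr 1
  apply propext
  constructor <;> rintro ⟨h1, h2⟩ <;> exact ⟨h1, by omega⟩

theorem vC_topR (hy : y < 4) (hx : x = 5 + 4 * s.length + j) :
    vC s M x y = if y = 3 ∧ j = 2 then 0 else 4 := by
  subst hx
  rw [vC_top hy]; unfold vT; rw [if_neg (by omega), if_neg (by omega)]
  congr 1
  apply propext
  constructor <;> rintro ⟨h1, h2⟩ <;> exact ⟨h1, by omega⟩

/-- horizontal costs of the top part in a cell -/
def hTop (o o' : Sub) (y j : ℕ) : ℕ :=
  if y = 3 then (if j = 1 ∧ dock o = true then 2 else 0)
  else if y = 0 then 4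
  else if j = 3 ∧ o' = none then 4
  else if y = 2 ∧ j = 1 ∧ dock o = true then 2
  else 0

/-- vertical costs of the top part in a cell -/
def vTop (o o' : Sub) (y j : ℕ) : ℕ :=
  if y = 0 then 4
  else if y = 1 then
    (if j = 0 ∧ o = none then 0 else if j = 3 ∧ o' = none then 0 else 4)
  else (if (j = 1 ∨ j = 2) ∧ dock o = true then 2 else 4)

theorem hC_topC (hk : k < s.length) (hy : y < 4) (hj : j < 4) (hx : x = 5 + 4 * k + j) :
    hC s M x y = hTop (sg s k) (sg s (k + 1)) y j := by
  subst hx
  rw [hC_top hy]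
  unfold hT hTop
  rw [if_neg (by omega), if_pos (by omega), show (5 + 4 * k + j - 5) / 4 = k by omega,
    show (5 + 4 * k + j - 5) % 4 = j by omega]

theorem vC_topC (hk : k < s.length) (hy : y < 4) (hj : j < 4) (hx : x = 5 + 4 * k + j) :
    vC s M x y = vTop (sg s k) (sg s (k + 1)) y j := by
  subst hx
  rw [vC_top hy]
  unfold vT vTop
  rw [if_neg (by omega), if_pos (by omega), show (5 + 4 * k + j - 5) / 4 = k by omega,
    show (5 + 4 * k + j - 5) % 4 = j by omega]

end rows

theorem hC_zero (s : List Sub) (M y : ℕ) : hC s M 0 y = 4 := by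
  rcases row_cases y with hy | ⟨i, r, hr, hy⟩
  · rw [hC_topL hy (by omega), if_neg (by omega)]
  · rcases Nat.lt_or_ge i (2 * M + 1) with hi | hi
    · rw [hC_left hi hr (by omega) hy]
      interval_cases r <;> rfl
    · exact hC_bot hi (by omega)

theorem vC_zero (s : List Sub) (M y : ℕ) : vC s M 0 y = 4 := by
  rcases row_cases y with hy | ⟨i, r, hr, hy⟩
  · rw [vC_topL hy (by omega), if_neg (by omega)]
  · rcases Nat.lt_or_ge i (2 * M + 1) with hi | hi
    · rw [vC_left hi hr (by omega) hy]
      rfl
    · exact vC_bot hi (by omega)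

theorem hC_y0 (s : List Sub) (M x : ℕ) : hC s M x 0 = 4 := by
  rcases col_cases s.length x with hx | ⟨k, j, hk, hj, hx⟩ | ⟨j, hx⟩
  · rw [hC_topL (by omega) hx, if_neg (by omega)]
  · rw [hC_topC hk (by omega) hj hx]; rfl
  · rw [hC_topR (by omega) hx, if_neg (by omega)]

theorem vC_y0 (s : List Sub) (M x : ℕ) : vC s M x 0 = 4 := by
  rcases col_cases s.length x with hx | ⟨k, j, hk, hj, hx⟩ | ⟨j, hx⟩
  · rw [vC_topL (by omega) hx, if_neg (by omega)]
  · rw [vC_topC hk (by omega) hj hx]; rfl
  · rw [vC_topR (by omega) hx, if_neg (by omega)]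

/-! ### kinds -/

theorem kind_none (i : ℕ) : kind none i = .plain := rfl

theorem kind_blk {i : ℕ} {b : Bool} : kind (some (i, b)) i = if b then .dblk else .blk := by
  unfold kind; simp

theorem kind_cross {v i : ℕ} (h : i < v) : kind (some (v, true)) i = .cross := by
  unfold kind; simp [h, Nat.ne_of_lt h]

theorem kind_below {v i : ℕ} {b : Bool} (h : v < i) : kind (some (v, b)) i = .plain := by
  unfold kind
  simp only
  rw [if_neg (by omega), if_neg (by omega)]

theorem kind_undocked {v i : ℕ} (h : i ≠ v) : kind (some (v, false)) i = .plain := by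
  unfold kind; simp [h]

theorem kind_eq_cross {o : Sub} {i : ℕ} (h : kind o i = .cross) :
    ∃ v, o = some (v, true) ∧ i < v := by
  rcases o with _ | ⟨v, b⟩
  · simp [kind] at h
  · unfold kind at h
    simp only at h
    split_ifs at h with h1 h2 h3
    obtain ⟨h3, h4⟩ := h3
    subst h3
    exact ⟨v, rfl, h4⟩

theorem kind_eq_dblk {o : Sub} {i : ℕ} (h : kind o i = .dblk) : o = some (i, true) := by
  rcases o with _ | ⟨v, b⟩
  · simp [kind] at h
  · unfold kind at h
    simp only at h
    split_ifs at h with h1 h2 h3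
    subst h1 h2
    rfl

theorem kind_eq_blk {o : Sub} {i : ℕ} (h : kind o i = .blk) : o = some (i, false) := by
  rcases o with _ | ⟨v, b⟩
  · simp [kind] at h
  · unfold kind at h
    simp only at h
    split_ifs at h with h1 h2 h3
    subst h1
    simp only [Bool.not_eq_true] at h2
    subst h2
    rfl

/-- the kind in the next row: below a crossing cell there is a cluster again -/
theorem kind_succ_of_cross {o : Sub} {i : ℕ} (h : kind o i = .cross) :
    kind o (i + 1) = .cross ∨ kind o (i + 1) = .dblk := by
  obtain ⟨v, rfl, hv⟩ := kind_eq_cross h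
  rcases Nat.lt_or_ge (i + 1) v with h1 | h1
  · exact Or.inl (kind_cross h1)
  · have : i + 1 = v := by omega
    subst this
    right; rw [kind_blk]; rfl

theorem kind_pred {o : Sub} {i : ℕ} (h : kind o (i + 1) = .cross ∨ kind o (i + 1) = .dblk) :
    kind o i = .cross := by
  rcases h with h | h
  · obtain ⟨v, rfl, hv⟩ := kind_eq_cross h
    exact kind_cross (by omega)
  · rw [kind_eq_dblk h]
    exact kind_cross (by omega)

theorem kind_succ_of_not_cross {o : Sub} {i : ℕ} (h : kind o i ≠ .cross) :
    kind o (i + 1) = .plain ∨ kind o (i + 1) = .blk := by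
  rcases hk : kind o (i + 1) with _ | _ | _ | _
  · exact Or.inl rfl
  · exact absurd (kind_pred (Or.inl hk)) h
  · exact Or.inr rfl
  · exact absurd (kind_pred (Or.inr hk)) h

theorem dock_iff {o : Sub} : dock o = true ↔ kind o 0 = .cross ∨ kind o 0 = .dblk := by
  rcases o with _ | ⟨v, b⟩
  · simp [dock, kind]
  · cases b
    · constructor
      · simp [dock]
      · intro h
        rcases Nat.eq_zero_or_pos v with hv | hv
        · subst hv; simp [kind] at h
        · rw [kind_undocked (by omega)] at h; simp at h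
    · simp only [dock, true_iff]
      rcases Nat.eq_zero_or_pos v with hv | hv
      · subst hv; right; rfl
      · left; exact kind_cross hv

theorem dock_some {v : ℕ} : dock (some (v, true)) = true := rfl

/-! ### vertices -/

/-- the vertices in a cell -/
def isV : Kind → ℕ → ℕ → Bool
  | _, 1, _ => true
  | _, 3, _ => true
  | _, 5, _ => true
  | .cross, _, 1 => true
  | .cross, _, 2 => true
  | .dblk, 0, 1 => true
  | .dblk, 0, 2 => true
  | .dblk, 2, _ => true
  | .dblk, 4, 1 => true
  | .dblk, 4, 2 => true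
  | .blk, 2, _ => true
  | .blk, 4, 1 => true
  | .blk, 4, 2 => true
  | _, _, _ => false

/-- the vertices at the left end -/
def isVL (M i r x : ℕ) : Bool :=
  match x with
  | 1 => decide (i < 2 * M ∨ r ≤ 4)
  | 2 => if i % 2 = 0 then (if i < 2 * M then decide (4 ≤ r) else decide (r = 4)) else decide (r ≤ 4)
  | 3 => decide (1 ≤ r ∧ r ≤ 4)
  | 4 => decide (r = 1 ∨ 3 ≤ r)
  | _ => false

/-- the vertices at the right end -/
def isVR (i r x : ℕ) : Bool :=
  match x with
  | 0 => decide (r = 1 ∨ 3 ≤ r)
  | 1 => decide (1 ≤ r ∧ r ≤ 4)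
  | 2 => if i % 2 = 0 then decide (r ≤ 4) else decide (4 ≤ r)
  | _ => false

section vert

variable {s : List Sub} {M x y k i r j : ℕ}

theorem vert_cell (hk : k < s.length) (hi : i < 2 * M + 1) (hr : r < 6) (hj : j < 4)
    (hx : x = 5 + 4 * k + j) (hy : y = 4 + 6 * i + r) :
    Vert (hC s M) (vC s M) (x, y) ↔ isV (kind (sg s k) i) r j = true := by
  have h1 := hC_cell hk hi hr hj hx hy
  have h2 := vC_cell hk hi hr hj hx hy
  -- left edge
  have h3 : j = 0 → (r % 2 = 0 → hC s M (x - 1) y ≠ 0) := by
    intro hj0 hr0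
    subst hj0
    rcases Nat.eq_zero_or_pos k with hk0 | hk0
    · subst hk0
      rw [hC_left hi hr (by omega) hy, show x - 1 = 4 by omega]
      interval_cases r <;> simp [hL] at hr0 ⊢
    · rw [hC_cell (k := k - 1) (j := 3) (by omega) hi hr (by omega) (by omega) hy]
      rcases kind (sg s (k - 1)) i with _ | _ | _ | _ <;> interval_cases r <;>
        simp [hCell] at hr0 ⊢
  have h3' : 0 < j → hC s M (x - 1) y = hCell (kind (sg s k) i) r (j - 1) :=
    fun hj0 => hC_cell hk hi hr (by omega) (by omega) hy
  have h4 : r = 0 → vC s M x (y - 1) ≠ 0 := by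
    intro hr0
    subst hr0
    rcases Nat.eq_zero_or_pos i with hi0 | hi0
    · subst hi0
      rw [vC_topC hk (by omega) hj hx]
      unfold vTop
      split_ifs <;> omega
    · rw [vC_cell (i := i - 1) (r := 5) hk (by omega) (by omega) hj hx (by omega)]
      rcases kind (sg s k) (i - 1) with _ | _ | _ | _ <;> interval_cases j <;> simp [vCell]
  have h4' : 0 < r → vC s M x (y - 1) = vCell (kind (sg s k) i) (r - 1) j :=
    fun hr0 => vC_cell hk hi (by omega) hj hx (by omega)
  unfold Vert
  simp only
  rw [h1, h2]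
  rcases hkd : kind (sg s k) i with _ | _ | _ | _ <;> rw [hkd] at h3' h4' <;>
    interval_cases r <;> interval_cases j <;>
    simp_all [hCell, vCell, isV]

theorem vert_left (hi : i < 2 * M + 1) (hr : r < 6) (hx : x < 5) (hy : y = 4 + 6 * i + r) :
    Vert (hC s M) (vC s M) (x, y) ↔ isVL M i r x = true := by
  have h1 := hC_left (s := s) hi hr hx hy
  have h2 := vC_left (s := s) hi hr hx hy
  have h3 := hC_left (s := s) (x := x - 1) hi hr (by omega) hy
  have h4' : 0 < r → vC s M x (y - 1) = vL M i (r - 1) x :=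
    fun hr0 => vC_left hi (by omega) hx (by omega)
  have h4 : r = 0 → 0 < i → vC s M x (y - 1) = vL M (i - 1) 5 x :=
    fun hr0 hi0 => vC_left (by omega) (by omega) hx (by omega)
  have h5 : r = 0 → i = 0 → vC s M x (y - 1) = if x = 1 then 0 else 4 := by
    intro hr0 hi0
    subst hr0 hi0
    rw [vC_topL (by omega) hx, show y - 1 = 3 by omega]
    simp
  unfold Vert
  simp only
  rw [h1, h2, h3]
  interval_cases r
  · rcases Nat.eq_zero_or_pos i with hi0 | hi0
    · rw [h5 rfl hi0]
      subst hi0
      interval_cases x <;> simp [hL, vL, isVL]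
    · rw [h4 rfl hi0]
      interval_cases x <;> simp [hL, vL, isVL]
      intro h
      split_ifs at h <;> omega
  all_goals
    rw [h4' (by omega)]
    interval_cases x <;> simp [hL, vL, isVL]
  all_goals first | omega | (split_ifs <;> simp <;> omega) | skip

theorem hC_lastcol (hi : i < 2 * M + 1) (hr : r < 6) (hx : x = 4 + 4 * s.length)
    (hy : y = 4 + 6 * i + r) : hC s M x y = 0 ↔ r % 2 = 1 := by
  rcases Nat.eq_zero_or_pos s.length with hK | hK
  · rw [hC_left hi hr (by omega) hy, show x = 4 by omega]
    interval_cases r <;> simp [hL]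
  · rw [hC_cell (k := s.length - 1) (j := 3) (by omega) hi hr (by omega) (by omega) hy]
    rcases kind (sg s (s.length - 1)) i with _ | _ | _ | _ <;> interval_cases r <;> simp [hCell]

theorem vert_right (hi : i < 2 * M + 1) (hr : r < 6) (hx : x = 5 + 4 * s.length + j)
    (hy : y = 4 + 6 * i + r) :
    Vert (hC s M) (vC s M) (x, y) ↔ isVR i r j = true := by
  have h1 := hC_right (s := s) hi hr hx hy
  have h2 := vC_right (s := s) hi hr hx hy
  have h3 : hC s M (x - 1) y = 0 ↔ (j = 0 ∧ r % 2 = 1) ∨ (0 < j ∧ hR r (j - 1) = 0) := by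
    rcases Nat.eq_zero_or_pos j with hj | hj
    · rw [hC_lastcol hi hr (by omega) hy]; simp [hj]
    · rw [hC_right (j := j - 1) hi hr (by omega) hy]; simp [hj]; omega
  have h4' : 0 < r → vC s M x (y - 1) = vR i (r - 1) j :=
    fun hr0 => vC_right hi (by omega) hx (by omega)
  have h4 : r = 0 → 0 < i → vC s M x (y - 1) = vR (i - 1) 5 j :=
    fun hr0 hi0 => vC_right (by omega) (by omega) hx (by omega)
  have h5 : r = 0 → i = 0 → vC s M x (y - 1) = if j = 2 then 0 else 4 := by
    intro hr0 hi0
    subst hr0 hi0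
    rw [vC_topR (by omega) hx, show y - 1 = 3 by omega]
    simp
  unfold Vert
  simp only
  rw [h1, h2, h3]
  rcases Nat.lt_or_ge j 3 with hj | hj
  · interval_cases r
    · rcases Nat.eq_zero_or_pos i with hi0 | hi0
      · rw [h5 rfl hi0]
        subst hi0
        interval_cases j <;> simp [hR, vR, isVR]
      · rw [h4 rfl hi0]
        interval_cases j <;> simp [hR, vR, isVR]
        all_goals first | omega | (split_ifs <;> simp <;> omega) | skip
    all_goals
      rw [h4' (by omega)]
      interval_cases j <;> simp [hR, vR, isVR]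
    all_goals first | omega | (split_ifs <;> simp <;> omega) | skip
  · have e1 : ∀ r, hR r j = 4 := by
      intro r
      unfold hR
      split <;> first | omega | rfl
    have e1' : j ≠ 3 → ∀ r, hR r (j - 1) = 4 := by
      intro _ r
      unfold hR
      split <;> first | omega | rfl
    have e1'' : ∀ r, hR r (j - 1) = 4 := by
      intro r
      unfold hR
      split <;> first | omega | rfl
    have e2 : ∀ i r, vR i r j = 4 := by
      intro i r
      unfold vR
      split <;> first | omega | rfl
    have e3 : isVR i r j = false := by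
      unfold isVR
      split <;> first | omega | rfl
    rw [e1, e1'', e2, e3]
    simp only [Bool.false_eq_true, iff_false, not_or]
    refine ⟨by omega, by omega, by omega, ?_⟩
    rcases Nat.eq_zero_or_pos r with hr0 | hr0
    · rcases Nat.eq_zero_or_pos i with hi0 | hi0
      · rw [h5 hr0 hi0, if_neg (by omega)]; omega
      · rw [h4 hr0 hi0, e2]; omega
    · rw [h4' hr0, e2]; omega

/-- no vertices below the rows -/
theorem vert_bot (hi : 2 * M + 1 ≤ i) (hy : 4 + 6 * i ≤ y) : ¬ Vert (hC s M) (vC s M) (x, y) := by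
  unfold Vert
  simp only
  rw [hC_bot (i := 2 * M + 1) le_rfl (by omega), hC_bot (i := 2 * M + 1) le_rfl (by omega),
    vC_bot (i := 2 * M + 1) le_rfl (by omega)]
  have : vC s M x (y - 1) ≠ 0 := by
    rcases Nat.lt_or_ge y (4 + 6 * (2 * M + 1) + 1) with h | h
    · have hi' : 2 * M < 2 * M + 1 := by omega
      rcases col_cases s.length x with hx | ⟨k, j, hk, hj, hx⟩ | ⟨j, hx⟩
      · rw [vC_left (i := 2 * M) (r := 5) hi' (by omega) hx (by omega)]
        interval_cases x <;> simp [vL]
      · rw [vC_cell (i := 2 * M) (r := 5) hk hi' (by omega) hj hx (by omega)]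
        rcases kind (sg s k) (2 * M) with _ | _ | _ | _ <;> interval_cases j <;> simp [vCell]
      · rw [vC_right (i := 2 * M) (r := 5) hi' (by omega) hx (by omega)]
        unfold vR
        split
        · simp
        · simp
        · simp
        · simp
    · rw [vC_bot (i := 2 * M + 1) le_rfl (by omega)]; omega
  omega

/-- the vertices of the top strand -/
theorem vert_y3 : Vert (hC s M) (vC s M) (x, 3) ↔ 1 ≤ x ∧ x ≤ 7 + 4 * s.length := by
  have h2 : vC s M x 2 ≠ 0 := by
    rcases col_cases s.length x with hx | ⟨k, j, hk, hj, hx⟩ | ⟨j, hx⟩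
    · rw [vC_topL (by omega) hx]; simp
    · rw [vC_topC hk (by omega) hj hx]; unfold vTop; split_ifs <;> omega
    · rw [vC_topR (by omega) hx]; simp
  unfold Vert
  simp only
  rw [show (3 : ℕ) - 1 = 2 from rfl]
  rcases col_cases s.length x with hx | ⟨k, j, hk, hj, hx⟩ | ⟨j, hx⟩
  · rw [hC_topL (by omega) hx, hC_topL (x := x - 1) (by omega) (by omega),
      vC_topL (by omega) hx]
    by_cases hx1 : 1 ≤ x
    · simp [hx1]; omega
    · have hx0 : x = 0 := by omega
      subst hx0
      simp [h2]
  · rw [vC_topC hk (by omega) hj hx, hC_topC hk (by omega) hj hx]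
    constructor
    · intro _; omega
    · intro _
      unfold hTop
      rcases Nat.eq_zero_or_pos j with hj0 | hj0
      · left; rw [if_pos rfl, if_neg (by omega)]
      · by_cases hj1 : j = 1
        · right; left
          rw [hC_topC (j := 0) hk (by omega) (by omega) (by omega)]
          unfold hTop
          rw [if_pos rfl, if_neg (by omega)]
        · left; rw [if_pos rfl, if_neg (by omega)]
  · rw [hC_topR (by omega) hx, vC_topR (by omega) hx]
    constructor
    · rintro (h | h | h | h)
      · split_ifs at h <;> omega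
      · rcases Nat.eq_zero_or_pos j with hj0 | hj0
        · omega
        · rw [hC_topR (j := j - 1) (by omega) (by omega)] at h
          split_ifs at h <;> omega
      · split_ifs at h <;> omega
      · exact absurd h h2
    · intro h
      by_cases hj : j = 2
      · right; right; left; simp [hj]
      · left; rw [if_pos ⟨rfl, by omega⟩]

/-- the vertices of the rings -/
theorem vert_ring (hy : y = 1 ∨ y = 2) :
    Vert (hC s M) (vC s M) (x, y) ↔ 5 ≤ x ∧ x < 5 + 4 * s.length := by
  unfold Vert
  simp only
  rcases col_cases s.length x with hx | ⟨k, j, hk, hj, hx⟩ | ⟨j, hx⟩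
  · rw [hC_topL (by omega) hx, hC_topL (x := x - 1) (by omega) (by omega),
      vC_topL (by omega) hx, vC_topL (by omega) hx]
    simp only [show ¬ (y = 3 ∧ 1 ≤ x) by omega, show ¬ (y = 3 ∧ 1 ≤ x - 1) by omega,
      show ¬ (y = 3 ∧ x = 1) by omega, show ¬ (y - 1 = 3 ∧ x = 1) by omega, if_false]
    omega
  · have hu : vC s M x (y - 1) = vTop (sg s k) (sg s (k + 1)) (y - 1) j :=
      vC_topC hk (by omega) hj hx
    rw [hC_topC hk (by omega) hj hx, vC_topC hk (by omega) hj hx, hu]
    constructor
    · intro _; omega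
    · intro _
      rcases hy with rfl | rfl
      · -- line 1
        by_cases h3 : j = 3 ∧ sg s (k + 1) = none
        · right; right; left
          unfold vTop
          simp [h3]
        · left
          unfold hTop
          simp [h3]
      · -- line 2
        by_cases h3 : j = 3 ∧ sg s (k + 1) = none
        · right; right; right
          unfold vTop
          simp [h3]
        · by_cases h1 : j = 1
          · right; left
            rw [hC_topC (j := 0) hk (by omega) (by omega) (by omega)]
            unfold hTop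
            simp
          · left
            unfold hTop
            simp [h3, h1]
  · rw [hC_topR (by omega) hx, vC_topR (by omega) hx, vC_topR (by omega) hx]
    simp only [show ¬ (y = 3 ∧ j < 2) by omega, show ¬ (y = 3 ∧ j = 2) by omega,
      show ¬ (y - 1 = 3 ∧ j = 2) by omega, if_false]
    have : hC s M (x - 1) y ≠ 0 := by
      rcases Nat.eq_zero_or_pos j with hj0 | hj0
      · rcases Nat.eq_zero_or_pos s.length with hK | hK
        · rw [hC_topL (by omega) (by omega), if_neg (by omega)]; omega
        · rw [hC_topC (k := s.length - 1) (j := 3) (by omega) (by omega) (by omega) (by omega)]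
          have h0 : sg s (s.length - 1 + 1) = none := sg_of_le (by omega)
          unfold hTop
          rw [h0]
          rcases hy with rfl | rfl <;> simp
      · rw [hC_topR (j := j - 1) (by omega) (by omega), if_neg (by omega)]; omega
    omega

theorem vert_y0 : ¬ Vert (hC s M) (vC s M) (x, 0) := by
  unfold Vert
  simp [hC_y0, vC_y0]

end vert

end Pool.Agent.Helper52.Grid
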