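import Pool.Agent.Helper52.Grid.Defs
import Pool.Agent.Helper68.LP.Yes

/-! Statements: forced degrees, and tours as cheap Hamiltonian cycles. -/

set_option autoImplicit false

namespace Pool.Agent.Helper52.Grid

/-- number of forced edges at `a` (given `Box`) -/
def fdeg (h v : ℕ → ℕ → ℕ) (a : Pt) : ℕ :=
  (if h a.1 a.2 = 0 then 1 else 0) + (if h (a.1 - 1) a.2 = 0 then 1 else 0) +
    (if v a.1 a.2 = 0 then 1 else 0) + (if v a.1 (a.2 - 1) = 0 then 1 else 0)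

/-- costs are `0`, `2`, `4` -/
def S_Vals : Prop := ∀ (s : List Sub) (M : ℕ),
  (∀ x y, hC s M x y = 0 ∨ hC s M x y = 2 ∨ hC s M x y = 4) ∧
  (∀ x y, vC s M x y = 0 ∨ vC s M x y = 2 ∨ vC s M x y = 4)

/-- (FD) at most two forced edges at each vertex -/
def S_FD : Prop := ∀ (s : List Sub) (M : ℕ),
  (∀ k i d, sg s k = some (i, d) → i < 2 * M + 1) → (0 < s.length → sg s 0 = none) →
  ∀ x y, fdeg (hC s M) (vC s M) (x + 1, y + 1) ≤ 2

open Pool.Agent.Helper68.LP in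
/-- (T) tours are the Hamiltonian cycles of small cost -/
def S_Cost : Prop := ∀ (h v : ℕ → ℕ → ℕ) (N : ℕ), Grid.Box h v N →
  (∀ x y, h x y = 0 ∨ h x y = 2 ∨ h x y = 4) → (∀ x y, v x y = 0 ∨ v x y = 2 ∨ v x y = 4) →
  (∀ x y, fdeg h v (x + 1, y + 1) ≤ 2) →
  ∀ (n : ℕ) (p : Fin n → Pt), 3 ≤ n → Function.Injective p → (∀ a, Vert h v a ↔ ∃ i, p i = a) →
  ((∃ σ : Equiv.Perm (Fin n), UnitTour p σ ∧
      ∑ i, ncost (fun x y => h x y / 2) (fun x y => v x y / 2) (p (σ i)) (p (σ (finRotate n i)))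
        ≤ (Finset.univ.filter (fun i => fdeg h v (p i) = 1)).card / 2) ↔
    ∃ T, Tour h v T)

end Pool.Agent.Helper52.Grid
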