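import Pool.Agent.Helper31.Grid.Conn
import Pool.Agent.Helper34.Grid.FD
import Pool.Agent.Helper34.Grid.Xor
import Pool.Agent.Helper37.Grid.UseConv
import Pool.Agent.Helper58.Grid.Clause
import Pool.Agent.Helper58.Grid.Deg
import Pool.Agent.Helper58.Grid.Sound
import Pool.Agent.Helper99.Grid.Compl
import Pool.Agent.Helper99.Grid.Box
import Pool.Agent.Helper17.Etsp.Use
import Pool.Agent.Helper68.LP.TourEq
import Pool.Agent.Helper53.CL.Nae

set_option autoImplicit false

/-! The instance of EXACT EUCLIDEAN TSP of a formula, correctness. -/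

namespace Pool.Agent.Helper52.Grid

open Pool.Agent.Helper68.LP (pert dbl scale p_pert pert_injective vert_box)
open Pool.Agent.Helper53.CL (Nae)
open Pool.Agent.Helper52.ETSP

theorem sound' : S_Sound := Helper58.Grid.sound Helper34.Grid.mod_Xor Helper58.Grid.clause
theorem compl' : S_Compl := Helper99.Grid.compl Helper99.Grid.choice Helper58.Grid.deg Helper31.Grid.s_Conn

/-- the formula says that no triple is constant -/
def nf (t : List (ℕ × ℕ × ℕ)) : CNF :=
  t.flatMap fun p => [[(p.1, true), (p.2.1, true), (p.2.2, true)],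
    [(p.1, false), (p.2.1, false), (p.2.2, false)]]

/-- bound for the variables -/
def nM (t : List (ℕ × ℕ × ℕ)) : ℕ := (t.map fun p => p.1 + p.2.1 + p.2.2).sum

theorem nf_sat (t : List (ℕ × ℕ × ℕ)) (a : ℕ → Bool) : (nf t).Sat a ↔ ∀ x ∈ t, Nae a x := by
  unfold CNF.Sat nf
  constructor
  · intro h x hx
    have h1 := h [(x.1, true), (x.2.1, true), (x.2.2, true)]
      (List.mem_flatMap.2 ⟨x, hx, by simp⟩)
    have h2 := h [(x.1, false), (x.2.1, false), (x.2.2, false)]
      (List.mem_flatMap.2 ⟨x, hx, by simp⟩)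
    simp only [List.mem_cons, List.not_mem_nil, or_false, exists_eq_or_imp, exists_eq_left] at h1 h2
    unfold Nae
    rintro ⟨e1, e2⟩
    rw [e1, e2] at h1 h2
    cases h3 : a x.2.2 <;> simp_all
  · intro h c hc
    rw [List.mem_flatMap] at hc
    obtain ⟨x, hx, hc⟩ := hc
    have := h x hx
    unfold Nae at this
    simp only [List.mem_cons, List.not_mem_nil, or_false] at hc
    rcases hc with rfl | rfl
    · simp only [List.mem_cons, List.not_mem_nil, or_false, exists_eq_or_imp, exists_eq_left]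
      cases h1 : a x.1 <;> cases h2 : a x.2.1 <;> cases h3 : a x.2.2 <;> simp_all
    · simp only [List.mem_cons, List.not_mem_nil, or_false, exists_eq_or_imp, exists_eq_left]
      cases h1 : a x.1 <;> cases h2 : a x.2.1 <;> cases h3 : a x.2.2 <;> simp_all

theorem nf_lt (t : List (ℕ × ℕ × ℕ)) : ∀ c ∈ nf t, ∀ l ∈ c, l.1 < 2 * nM t + 1 := by
  intro c hc l hl
  unfold nf at hc
  rw [List.mem_flatMap] at hc
  obtain ⟨x, hx, hc⟩ := hc
  have h1 : x.1 + x.2.1 + x.2.2 ≤ nM t :=
    List.single_le_sum (fun _ _ => Nat.zero_le _) _ (List.mem_map.2 ⟨x, hx, rfl⟩)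
  simp only [List.mem_cons, List.not_mem_nil, or_false] at hc
  rcases hc with rfl | rfl <;>
  · simp only [List.mem_cons, List.not_mem_nil, or_false] at hl
    rcases hl with rfl | rfl | rfl <;> simp only <;> omega

/-- the subcolumns of the formula of `t` -/
def gs (t : List (ℕ × ℕ × ℕ)) : List Sub := subs (nf t)

/-- horizontal costs -/
def gh (t : List (ℕ × ℕ × ℕ)) : ℕ → ℕ → ℕ := hC (gs t) (nM t)

/-- vertical costs -/
def gv (t : List (ℕ × ℕ × ℕ)) : ℕ → ℕ → ℕ := vC (gs t) (nM t)

/-- size of the box -/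
def gN (t : List (ℕ × ℕ × ℕ)) : ℕ := 8 + 4 * (gs t).length + 12 * nM t + 10

/-- test for vertices -/
def isVt (h v : ℕ → ℕ → ℕ) (a : Pt) : Bool :=
  decide (h a.1 a.2 = 0 ∨ h (a.1 - 1) a.2 = 0 ∨ v a.1 a.2 = 0 ∨ v a.1 (a.2 - 1) = 0)

/-- the list of the vertices -/
def gL (t : List (ℕ × ℕ × ℕ)) : List Pt :=
  ((List.range (gN t + 1)).flatMap fun x => (List.range (gN t + 1)).map fun y => (x, y)).filter
    (fun a => isVt (gh t) (gv t) a)

theorem gbox (t : List (ℕ × ℕ × ℕ)) : Box (gh t) (gv t) (gN t) := Helper99.Grid.box _ _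

theorem gL_nodup (t : List (ℕ × ℕ × ℕ)) : (gL t).Nodup := by
  unfold gL
  apply List.Nodup.filter
  rw [List.nodup_flatMap]
  constructor
  · intro x _
    exact List.Nodup.map (fun a b h => (Prod.ext_iff.1 h).2) List.nodup_range
  · refine List.Pairwise.imp ?_ List.nodup_range
    intro a b hab
    intro p hp hq
    rw [List.mem_map] at hp hq
    obtain ⟨y, _, rfl⟩ := hp
    obtain ⟨z, _, h⟩ := hq
    exact hab (Prod.ext_iff.1 h).1.symm

theorem mem_gL (t : List (ℕ × ℕ × ℕ)) (a : Pt) : a ∈ gL t ↔ Vert (gh t) (gv t) a := by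
  unfold gL isVt
  rw [List.mem_filter, decide_eq_true_iff]
  constructor
  · exact fun h => h.2
  · intro h
    refine ⟨?_, h⟩
    have hb := vert_box (gbox t) h
    rw [List.mem_flatMap]
    refine ⟨a.1, List.mem_range.2 (by omega), ?_⟩
    rw [List.mem_map]
    exact ⟨a.2, List.mem_range.2 (by omega), rfl⟩

theorem three_le (t : List (ℕ × ℕ × ℕ)) : 3 ≤ (gL t).length := by
  have h1 : [((1 : ℕ), (3 : ℕ)), (2, 3), (3, 3)] ⊆ gL t := by
    intro a ha
    rw [mem_gL]
    left
    simp only [List.mem_cons, List.not_mem_nil, or_false] at ha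
    rcases ha with rfl | rfl | rfl <;> simp [gh, hC, hT]
  have h2 : ([((1 : ℕ), (3 : ℕ)), (2, 3), (3, 3)] : List Pt).Nodup := by decide
  exact (List.subperm_of_subset h2 h1).length_le

/-- the existence of tours means satisfiability -/
theorem tour_iff (t : List (ℕ × ℕ × ℕ)) :
    (∃ T, Tour (gh t) (gv t) T) ↔ ∃ a : ℕ → Bool, ∀ x ∈ t, Nae a x := by
  constructor
  · rintro ⟨T, hT⟩
    have h3 : 3 ≤ T.length := by
      refine (three_le t).trans (List.subperm_of_subset (gL_nodup t) ?_).length_le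
      intro a ha
      rw [hT.mem, ← mem_gL]
      exact ha
    obtain ⟨hU, vU, hUse, -⟩ := Helper17.Etsp.s_use _ _ _ T (gbox t) hT h3
    obtain ⟨a, ha, -⟩ := sound' (nf t) (nM t) hU vU (nf_lt t) hUse
    exact ⟨a, (nf_sat t a).1 ha⟩
  · rintro ⟨a, ha⟩
    obtain ⟨hU, vU, hUse, -⟩ := compl' (nf t) (nM t) a (nf_lt t) ((nf_sat t a).2 ha)
    have hv : ∃ a, Vert (gh t) (gv t) a := by
      obtain ⟨b, hb⟩ := List.exists_mem_of_length_pos (l := gL t) (by have := three_le t; omega)
      exact ⟨b, (mem_gL t b).1 hb⟩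
    obtain ⟨T, hT, -, -⟩ := Helper37.Grid.useConv _ _ _ hU vU (gbox t) hv hUse
    exact ⟨T, hT⟩

/-- number of unforced incidences -/
def gW (t : List (ℕ × ℕ × ℕ)) : ℕ :=
  2 * (gL t).length - ((gL t).map (Helper68.LP.fdeg (gh t) (gv t))).sum

/-- the scale -/
def gS (t : List (ℕ × ℕ × ℕ)) : ℕ := scale (gL t).length (gN t) 4 (gW t)

/-- the bound -/
def gB (t : List (ℕ × ℕ × ℕ)) : ℕ := (gL t).length * gS t + (2 * gW t + 1)

theorem gcosts (t : List (ℕ × ℕ × ℕ)) : Helper68.LP.Costs (gh t) (gv t) :=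
  Helper34.Grid.mod_Vals _ _

/-- the instance -/
def gI (t : List (ℕ × ℕ × ℕ)) : Instance where
  n := (gL t).length
  pt := fun i => pert (dbl (gh t)) (dbl (gv t)) (gS t : ℕ) ((gL t).get i)
  inj := by
    refine pert_injective (N := gN t) (C := 8) ⟨?_, ?_⟩ _ (List.nodup_iff_injective_get.mp (gL_nodup t))
      (fun i => vert_box (gbox t) ((mem_gL t _).1 (List.get_mem _ i))) ?_ ?_
    · intro x y
      unfold dbl
      have := (gcosts t).1 x y
      rw [abs_of_nonneg (by positivity)]
      push_cast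
      omega
    · intro x y
      unfold dbl
      have := (gcosts t).2 x y
      rw [abs_of_nonneg (by positivity)]
      push_cast
      omega
    · unfold gS scale
      have : 0 ≤ 8 * (gL t).length * (gN t * 4) ^ 2 := Nat.zero_le _
      have : 3 ≤ gN t := by unfold gN; omega
      push_cast
      have : (0 : ℤ) ≤ 8 * (gL t).length * (gN t * 4) ^ 2 := by positivity
      have : (0 : ℤ) ≤ gW t := by positivity
      have : (0 : ℤ) ≤ gN t := by positivity
      linarith
    · unfold gS scale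
      push_cast
      have : (0 : ℤ) ≤ 8 * (gL t).length * (gN t * 4) ^ 2 := by positivity
      have : (0 : ℤ) ≤ gW t := by positivity
      linarith
  bound := gB t
  bound_pos := by unfold gB; omega

theorem fdeg_sum (t : List (ℕ × ℕ × ℕ)) :
    ((gL t).map (Helper68.LP.fdeg (gh t) (gv t))).sum ≤ 2 * (gL t).length := by
  have key : ∀ l : List Pt, (∀ a ∈ l, Helper68.LP.fdeg (gh t) (gv t) a ≤ 2) →
      (l.map (Helper68.LP.fdeg (gh t) (gv t))).sum ≤ 2 * l.length := by
    intro l
    induction l with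
    | nil => intro _; simp
    | cons a l ih =>
      intro h
      have h1 := h a List.mem_cons_self
      have h2 := ih (fun b hb => h b (List.mem_cons_of_mem _ hb))
      rw [List.map_cons, List.sum_cons, List.length_cons]
      omega
  apply key
  intro a ha
  have hb := gbox t
  have hv := (mem_gL t a).1 ha
  have h2 := Helper34.Grid.mod_FD (gs t) (nM t) (Helper99.Grid.subs_bound (nf_lt t))
    Helper99.Grid.subs_zero
  · obtain ⟨x, y⟩ := a
    cases x with
    | zero =>
      exfalso
      unfold Vert at hv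
      simp only [Nat.zero_sub] at hv
      rw [hb.hx, hb.vx, hb.vx] at hv
      omega
    | succ x =>
      cases y with
      | zero =>
        exfalso
        unfold Vert at hv
        simp only [Nat.zero_sub] at hv
        rw [hb.hy, hb.hy, hb.vy] at hv
        omega
      | succ y => exact h2 x y

theorem gI_yes (t : List (ℕ × ℕ × ℕ)) : (gI t).Yes ↔ ∃ a : ℕ → Bool, ∀ x ∈ t, Nae a x := by
  rw [← tour_iff, p_pert (gbox t) (gcosts t) (gL t) (gL_nodup t) (mem_gL t) (three_le t) (gW t)
    (by unfold gW; have := fdeg_sum t; omega)]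
  rfl

end Pool.Agent.Helper52.Grid
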