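import Pool.Agent.Helper52.Grid.PTLib
import Pool.Agent.Helper52.Grid.Defs

set_option autoImplicit false

/-! The costs of the formula graph are computable in polynomial time. -/

namespace Pool.Agent.Helper52.Grid

open Pool.Agent.Helper58 Pool.Agent.Helper53.CL Function

instance encSub : Enc (Option (ℕ × Bool)) := ⟨fun o => enc o.toList, by
  intro a b h
  have h2 : a.toList = b.toList := Enc.inj h
  cases a <;> cases b <;> simp_all⟩

/-- number of a kind -/
def kn : Kind → ℕ
  | .plain => 0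
  | .cross => 1
  | .blk => 2
  | .dblk => 3

instance encKind : Enc Kind := ⟨fun k => enc (kn k), by
  intro a b h
  have h2 : kn a = kn b := Enc.inj h
  cases a <;> cases b <;> simp_all [kn]⟩

instance : Finite Kind := Finite.of_injective (fun k : Kind => (⟨kn k, by cases k <;> simp [kn]⟩ : Fin 4))
  (by intro a b h; cases a <;> cases b <;> simp_all [kn])

variable {γ : Type} [Enc γ]

@[fun_prop] theorem ptf_some {f : γ → ℕ × Bool} (hf : PTf f) : PTf (fun x => some (f x)) := by
  have h : PTf (fun x => [f x]) := by fun_prop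
  exact h.recode (i := fun c => c) (fun _ => rfl) (fun _ => rfl)

@[fun_prop] theorem ptf_toList {f : γ → Option (ℕ × Bool)} (hf : PTf f) :
    PTf (fun x => (f x).toList) :=
  hf.recode (i := fun c => c) (fun _ => rfl) (fun _ => rfl)

@[fun_prop] theorem ptf_sg {s : γ → List Sub} {k : γ → ℕ} (hs : PTf s) (hk : PTf k) :
    PTf (fun x => sg (s x) (k x)) := by
  unfold sg
  exact ptf_getD (α := Option (ℕ × Bool)) hs hk (PTf.const none)

@[fun_prop] theorem ptf_dock {o : γ → Sub} (ho : PTf o) : PTf (fun x => dock (o x)) := by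
  have : PTf (fun x => hd ((o x).toList.map (fun p => p.2)) false) := by
    have h1 : PTf (fun x => (o x).toList) := ptf_toList ho
    fun_prop
  refine this.congr (fun x => ?_)
  rcases o x with _ | ⟨v, _ | _⟩ <;> rfl

@[fun_prop] theorem ptf_isNone {o : γ → Sub} (ho : PTf o) : PTf (fun x => decide (o x = none)) :=
  PTf.decEq (α := Option (ℕ × Bool)) ho (PTf.const none)

@[fun_prop] theorem ptf_kind {o : γ → Sub} {i : γ → ℕ} (ho : PTf o) (hi : PTf i) :
    PTf (fun x => kind (o x) (i x)) := by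
  have h1 : PTf (fun x => (o x).toList) := ptf_toList ho
  have : PTf (fun x => hd ((o x).toList.map (fun p => if i x = p.1 then
      (if p.2 = true then Kind.dblk else Kind.blk)
      else if p.2 = true ∧ i x < p.1 then Kind.cross else Kind.plain)) Kind.plain) := by
    fun_prop
  refine this.congr (fun x => ?_)
  rcases o x with _ | ⟨v, b⟩
  · rfl
  · show _ = (if i x = v then (if b = true then Kind.dblk else Kind.blk)
      else if b = true ∧ i x < v then Kind.cross else Kind.plain)
    rfl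

/-- table of a cost function on `r < 6`, `j < 4` -/
def tbl (f : ℕ → ℕ → ℕ) : List (List ℕ) := (List.range 6).map (fun r => (List.range 6).map (f r))

theorem tbl_eq (f : ℕ → ℕ → ℕ) (r j : ℕ) (hr : r < 6) (hj : j < 6) :
    ((tbl f).getD r []).getD j 4 = f r j := by
  have h1 : (tbl f).getD r [] = (List.range 6).map (f r) := by
    unfold tbl
    rw [List.getD_eq_getElem (hn := by rw [List.length_map, List.length_range]; exact hr)]
    simp
  rw [h1, List.getD_eq_getElem (hn := by rw [List.length_map, List.length_range]; exact hj)]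
  simp

theorem ptf_tbl {δ : Type} [Enc δ] [Finite δ] (F : δ → ℕ → ℕ → ℕ) {k : γ → δ} {r j : γ → ℕ}
    (hk : PTf k) (hr : PTf r) (hj : PTf j) (hr6 : ∀ x, r x < 6) (hj6 : ∀ x, j x < 6) :
    PTf (fun x => F (k x) (r x) (j x)) := by
  have h1 : PTf (fun d : δ => tbl (F d)) := PTf.ofFinite _
  have h2 : PTf (fun x => tbl (F (k x))) := PTf.comp (g := fun d : δ => tbl (F d)) h1 hk
  have : PTf (fun x => ((tbl (F (k x))).getD (r x) []).getD (j x) 4) := by fun_prop
  exact this.congr (fun x => (tbl_eq _ _ _ (hr6 x) (hj6 x)).symm)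

theorem hL_eq (M i r x : ℕ) : hL M i r x =
    if r = 1 ∧ (x = 3 ∨ x = 4) then 0 else if r = 3 ∧ x = 3 then 2 else if r = 3 ∧ x = 4 then 0
    else if r = 4 ∧ x = 1 then (if i = 2 * M then 0 else 4) else if r = 4 ∧ x = 2 then 0
    else if r = 4 ∧ x = 3 then 2 else if r = 5 ∧ x = 4 then 0 else 4 := by
  rcases r with _ | _ | _ | _ | _ | _ | r <;> rcases x with _ | _ | _ | _ | _ | x <;> simp [hL]

theorem vL_eq (M i r x : ℕ) : vL M i r x =
    if x = 1 then (if i < 2 * M ∨ r < 4 then 0 else 4)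
    else if x = 2 then (if i % 2 = 0 then (if i < 2 * M ∧ 4 ≤ r then 0 else 4)
      else (if r < 4 then 0 else 4))
    else if x = 3 then (if r = 1 ∨ r = 2 then 0 else if r = 3 then 2 else 4)
    else if x = 4 then (if r = 3 then 2 else if r = 4 then 0 else 4) else 4 := by
  rcases x with _ | _ | _ | _ | _ | x
  · simp [vL]
  · simp [vL]
  · simp [vL]
  · rcases r with _ | _ | _ | _ | _ | _ | r <;> simp [vL]
  · rcases r with _ | _ | _ | _ | _ | _ | r <;> simp [vL]
  · simp [vL]

theorem hR_eq (r x : ℕ) : hR r x =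
    if r = 1 ∧ x = 0 then 0 else if (r = 3 ∨ r = 4) ∧ x = 0 then 2 else if r = 4 ∧ x = 1 then 0
    else 4 := by
  rcases r with _ | _ | _ | _ | _ | _ | r <;> rcases x with _ | _ | _ | x <;> simp [hR]

theorem vR_eq (i r x : ℕ) : vR i r x =
    if x = 0 then (if r = 3 then 2 else if r = 4 then 0 else 4)
    else if x = 1 then (if r = 1 ∨ r = 2 then 0 else if r = 3 then 2 else 4)
    else if x = 2 then (if i % 2 = 0 then (if r < 4 then 0 else 4) else (if 4 ≤ r then 0 else 4))
    else 4 := by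
  rcases x with _ | _ | _ | x
  · rcases r with _ | _ | _ | _ | _ | _ | r <;> simp [vR]
  · rcases r with _ | _ | _ | _ | _ | _ | r <;> simp [vR]
  · simp [vR]
  · simp [vR]

@[fun_prop] theorem ptf_hL {M i r x : γ → ℕ} (hM : PTf M) (hi : PTf i) (hr : PTf r) (hx : PTf x) :
    PTf (fun a => hL (M a) (i a) (r a) (x a)) := by
  simp only [hL_eq]; fun_prop

@[fun_prop] theorem ptf_vL {M i r x : γ → ℕ} (hM : PTf M) (hi : PTf i) (hr : PTf r) (hx : PTf x) :
    PTf (fun a => vL (M a) (i a) (r a) (x a)) := by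
  simp only [vL_eq]; fun_prop

@[fun_prop] theorem ptf_hR {r x : γ → ℕ} (hr : PTf r) (hx : PTf x) :
    PTf (fun a => hR (r a) (x a)) := by
  simp only [hR_eq]; fun_prop

@[fun_prop] theorem ptf_vR {i r x : γ → ℕ} (hi : PTf i) (hr : PTf r) (hx : PTf x) :
    PTf (fun a => vR (i a) (r a) (x a)) := by
  simp only [vR_eq]; fun_prop

theorem ptf_hT {s : γ → List Sub} {x y : γ → ℕ} (hs : PTf s) (hx : PTf x) (hy : PTf y) :
    PTf (fun a => hT (s a) (x a) (y a)) := by
  unfold hT
  have h1 : PTf (fun a => (s a).length) := PTf.length (α := Option (ℕ × Bool)) hs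
  have h2 : PTf (fun a => dock (sg (s a) ((x a - 5) / 4))) := by fun_prop
  have h3 : PTf (fun a => decide (sg (s a) ((x a - 5) / 4 + 1) = none)) :=
    ptf_isNone (by fun_prop)
  fun_prop

theorem ptf_vT {s : γ → List Sub} {x y : γ → ℕ} (hs : PTf s) (hx : PTf x) (hy : PTf y) :
    PTf (fun a => vT (s a) (x a) (y a)) := by
  unfold vT
  have h1 : PTf (fun a => (s a).length) := PTf.length (α := Option (ℕ × Bool)) hs
  have h2 : PTf (fun a => dock (sg (s a) ((x a - 5) / 4))) := by fun_prop
  have h3 : PTf (fun a => decide (sg (s a) ((x a - 5) / 4 + 1) = none)) :=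
    ptf_isNone (by fun_prop)
  have h4 : PTf (fun a => decide (sg (s a) ((x a - 5) / 4) = none)) :=
    ptf_isNone (by fun_prop)
  fun_prop

theorem ptf_hCell {k : γ → Kind} {u w : γ → ℕ} (hk : PTf k) (hu : PTf u) (hw : PTf w) :
    PTf (fun a => hCell (k a) (u a % 6) (w a % 4)) :=
  ptf_tbl hCell hk (by fun_prop) (by fun_prop) (fun a => Nat.mod_lt _ (by omega))
    (fun a => lt_of_lt_of_le (Nat.mod_lt _ (by omega)) (by omega : 4 ≤ 6))

theorem ptf_vCell {k : γ → Kind} {u w : γ → ℕ} (hk : PTf k) (hu : PTf u) (hw : PTf w) :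
    PTf (fun a => vCell (k a) (u a % 6) (w a % 4)) :=
  ptf_tbl vCell hk (by fun_prop) (by fun_prop) (fun a => Nat.mod_lt _ (by omega))
    (fun a => lt_of_lt_of_le (Nat.mod_lt _ (by omega)) (by omega : 4 ≤ 6))

theorem ptf_hC {s : γ → List Sub} {M x y : γ → ℕ} (hs : PTf s) (hM : PTf M) (hx : PTf x)
    (hy : PTf y) : PTf (fun a => hC (s a) (M a) (x a) (y a)) := by
  unfold hC
  have h1 : PTf (fun a => (s a).length) := PTf.length (α := Option (ℕ × Bool)) hs
  have h2 := ptf_hT hs hx hy
  have h3 : PTf (fun a => hCell (kind (sg (s a) ((x a - 5) / 4)) ((y a - 4) / 6))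
      ((y a - 4) % 6) ((x a - 5) % 4)) := ptf_hCell (by fun_prop) (by fun_prop) (by fun_prop)
  fun_prop

theorem ptf_vC {s : γ → List Sub} {M x y : γ → ℕ} (hs : PTf s) (hM : PTf M) (hx : PTf x)
    (hy : PTf y) : PTf (fun a => vC (s a) (M a) (x a) (y a)) := by
  unfold vC
  have h1 : PTf (fun a => (s a).length) := PTf.length (α := Option (ℕ × Bool)) hs
  have h2 := ptf_vT hs hx hy
  have h3 : PTf (fun a => vCell (kind (sg (s a) ((x a - 5) / 4)) ((y a - 4) / 6))
      ((y a - 4) % 6) ((x a - 5) % 4)) := ptf_vCell (by fun_prop) (by fun_prop) (by fun_prop)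
  fun_prop

end Pool.Agent.Helper52.Grid
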