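import Pool.Agent.Helper52.Grid.Reduce
import Pool.Agent.Helper52.Grid.PTCost
import Pool.Agent.Helper99.ETSP.Raw

set_option autoImplicit false

/-! The code of the instance of a formula is computable in polynomial time. -/

namespace Pool.Agent.Helper52.Grid

open Pool.Agent.Helper58 Function
open Pool.Agent.Helper68.LP (pert dbl scale)
open Pool.Agent.Helper52.ETSP
open Pool.Agent.Helper99.ETSP (raw code_eq)

abbrev Tr := List (ℕ × ℕ × ℕ)

variable {γ : Type} [Enc γ]

@[fun_prop] theorem ptf_nM {t : γ → Tr} (ht : PTf t) : PTf (fun x => nM (t x)) := by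
  unfold nM; fun_prop

@[fun_prop] theorem ptf_gs {t : γ → Tr} (ht : PTf t) : PTf (fun x => gs (t x)) := by
  have h1 : PTf (fun c : List (ℕ × Bool) => clSubs c) := by
    have h2 : PTf (fun c : List (ℕ × Bool) => c.flatMap
        (fun l => [some (l.1, l.2), some (l.1, !l.2)])) := by
      refine PTf.flatMap PTf.id ?_
      have h3 : PTf (fun p : List (ℕ × Bool) × (ℕ × Bool) => some (p.2.1, p.2.2)) := by fun_prop
      have h4 : PTf (fun p : List (ℕ × Bool) × (ℕ × Bool) => some (p.2.1, !p.2.2)) := by fun_prop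
      exact PTf.cons h3 (PTf.cons h4 (PTf.const []))
    exact PTf.cons (PTf.const none) h2
  have h5 : PTf (fun x => nf (t x)) := by unfold nf; fun_prop
  unfold gs subs
  exact PTf.flatMap h5 (PTf.comp h1 (PTf.snd PTf.id))

@[fun_prop] theorem ptf_gN {t : γ → Tr} (ht : PTf t) : PTf (fun x => gN (t x)) := by
  unfold gN
  have h1 : PTf (fun x => (gs (t x)).length) := PTf.length (α := Option (ℕ × Bool)) (ptf_gs ht)
  fun_prop

@[fun_prop] theorem ptf_gh {t : γ → Tr} {x y : γ → ℕ} (ht : PTf t) (hx : PTf x) (hy : PTf y) :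
    PTf (fun a => gh (t a) (x a) (y a)) := by
  unfold gh
  exact ptf_hC (ptf_gs ht) (by fun_prop) hx hy

@[fun_prop] theorem ptf_gv {t : γ → Tr} {x y : γ → ℕ} (ht : PTf t) (hx : PTf x) (hy : PTf y) :
    PTf (fun a => gv (t a) (x a) (y a)) := by
  unfold gv
  exact ptf_vC (ptf_gs ht) (by fun_prop) hx hy

@[fun_prop] theorem ptf_gL {t : γ → Tr} (ht : PTf t) : PTf (fun x => gL (t x)) := by
  unfold gL
  refine PTf.filter (by fun_prop) ?_
  unfold isVt
  fun_prop

@[fun_prop] theorem ptf_fdeg {t : γ → Tr} {a : γ → ℕ × ℕ} (ht : PTf t) (ha : PTf a) :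
    PTf (fun x => Helper68.LP.fdeg (gh (t x)) (gv (t x)) (a x)) := by
  unfold Helper68.LP.fdeg
  fun_prop

@[fun_prop] theorem ptf_gW {t : γ → Tr} (ht : PTf t) : PTf (fun x => gW (t x)) := by
  unfold gW
  have h : PTf (fun x => (gL (t x)).map (Helper68.LP.fdeg (gh (t x)) (gv (t x)))) := by
    refine PTf.map (by fun_prop) ?_
    exact ptf_fdeg (t := fun p : γ × (ℕ × ℕ) => t p.1) (by fun_prop) (by fun_prop)
  fun_prop

@[fun_prop] theorem ptf_gS {t : γ → Tr} (ht : PTf t) : PTf (fun x => gS (t x)) := by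
  unfold gS scale
  fun_prop

@[fun_prop] theorem ptf_gB {t : γ → Tr} (ht : PTf t) : PTf (fun x => gB (t x)) := by
  unfold gB
  fun_prop

/-- coordinates of a point, natural numbers -/
def gx (t : Tr) (a : ℕ × ℕ) : ℕ := gS t * a.1 + ((List.range a.1).map (fun i => 2 * gh t i a.2)).sum

/-- coordinates of a point, natural numbers -/
def gy (t : Tr) (a : ℕ × ℕ) : ℕ := gS t * a.2 + ((List.range a.2).map (fun j => 2 * gv t a.1 j)).sum

@[fun_prop] theorem ptf_gx {t : γ → Tr} {a : γ → ℕ × ℕ} (ht : PTf t) (ha : PTf a) :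
    PTf (fun x => gx (t x) (a x)) := by
  unfold gx; fun_prop

@[fun_prop] theorem ptf_gy {t : γ → Tr} {a : γ → ℕ × ℕ} (ht : PTf t) (ha : PTf a) :
    PTf (fun x => gy (t x) (a x)) := by
  unfold gy; fun_prop

theorem pert_eq (t : Tr) (a : ℕ × ℕ) :
    pert (dbl (gh t)) (dbl (gv t)) (gS t : ℕ) a = ((gx t a : ℤ), (gy t a : ℤ)) := by
  have key : ∀ (f : ℕ → ℕ) (n : ℕ), ∑ i ∈ Finset.range n, (2 * (f i : ℤ))
      = (((List.range n).map (fun i => 2 * f i)).sum : ℕ) := by
    intro f n
    induction n with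
    | zero => simp
    | succ n ih =>
      rw [Finset.sum_range_succ, ih, List.range_succ, List.map_append, List.sum_append]
      push_cast
      simp
  unfold pert dbl gx gy
  push_cast
  refine Prod.ext ?_ ?_
  · simp only
    rw [key (fun i => gh t i a.2)]
    push_cast
    rfl
  · simp only
    rw [key (fun i => gv t a.1 i)]
    push_cast
    rfl

theorem raw_gI (t : Tr) : raw (gI t) =
    ((gL t).map (fun a => ((false, (gx t a).bits), (false, (gy t a).bits))), (gB t).bits) := by
  unfold raw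
  refine Prod.ext ?_ rfl
  simp only
  have h1 : List.ofFn (gI t).pt = (gL t).map (fun a => pert (dbl (gh t)) (dbl (gv t)) (gS t : ℕ) a) := by
    apply List.ext_getElem
    · simp [gI]
    · intro i h1 h2
      simp [gI]
  rw [h1, List.map_map]
  apply List.map_congr_left
  intro a _
  simp only [Function.comp_apply, pert_eq]
  have h2 : ∀ n : ℕ, decide ((n : ℤ) < 0) = false := by intro n; simp
  rw [h2, h2, Int.natAbs_natCast, Int.natAbs_natCast]

theorem ptf_code : PTf (fun t : Tr => Pool.Agent.Helper52.Poly.code (gI t)) := by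
  have h1 : PTf (fun t : Tr =>
      ((gL t).map (fun a => ((false, (gx t a).bits), (false, (gy t a).bits))), (gB t).bits)) := by
    fun_prop
  refine (PTf.code h1).congr (fun t => ?_)
  rw [code_eq, raw_gI]

end Pool.Agent.Helper52.Grid
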