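import Pool.Agent.Helper52.Grid.ReducePT
import Pool.Agent.Helper53.CL.Bridge
import Pool.Agent.Helper53.CL.Classes
import Pool.Agent.Helper52.ETSP.Main2

set_option autoImplicit false

/-! EXACT EUCLIDEAN TSP is in P if and only if P = NP and PLANAR SUM OF SQUARE ROOTS is in P. -/

namespace Pool.Agent.Helper52.Grid

open Pool.Agent.Helper58 Function
open Pool.Agent.Helper52.ETSP
open Pool.Agent.Helper53.CL (PEqNP Nae pEqNP_iff inP_iff inNP_reduces poly_inP_iff
  poly_inNP_reduces nae_of_pEqNP)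
open Pool.Agent.Helper99.ETSP (code_inj)

theorem pEqNP_of_inP (h : Poly.InP Instance.Yes) : PEqNP := by
  classical
  rw [pEqNP_iff]
  intro L hL
  obtain ⟨f, hf, hsat⟩ := inNP_reduces hL
  rw [inP_iff]
  rw [poly_inP_iff code_inj] at h
  have h1 : PTf (fun u : List Bool => Poly.code (gI (f u))) := PTf.comp (g := fun t : Tr => Poly.code (gI t)) ptf_code hf
  have h2 : PTf (fun u : List Bool => (⟨gI (f u)⟩ : Coded (Poly.code : Instance → List Bool) code_inj)) :=
    h1.recode (i := fun c => c) (fun _ => rfl) (fun _ => rfl)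
  refine (PTf.comp h h2).congr (fun u => ?_)
  rw [decide_eq_decide]
  show u ∈ L ↔ (gI (f u)).Yes
  rw [gI_yes, hsat]

theorem inP_of_pEqNP (hP : PEqNP) (hS : Poly.InP SSR) : Poly.InP Instance.Yes := by
  classical
  have h1 : Poly.InNP Instance.Yes := Conv.np_of_np hS.toNP
  obtain ⟨f, hf, hsat⟩ := poly_inNP_reduces code_inj h1
  rw [poly_inP_iff code_inj]
  refine (PTf.comp (nae_of_pEqNP hP) hf).congr (fun x => ?_)
  rw [decide_eq_decide]
  exact (hsat x).symm

theorem inP_iff_pEqNP_and : Poly.InP Instance.Yes ↔ (PEqNP ∧ Poly.InP SSR) :=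
  ⟨fun h => ⟨pEqNP_of_inP h, Conv.p_of_p h⟩, fun h => inP_of_pEqNP h.1 h.2⟩

end Pool.Agent.Helper52.Grid
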