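import Pool.Agent.Helper53.CL.Lib
import Pool.Agent.Helper53.CL.Cnf
import Pool.Agent.Helper58.Equiv

set_option autoImplicit false

/-! More polynomial time functions: arithmetic (unary numbers), lists, binary digits. -/

namespace Pool.Agent.Helper52.Grid

open Pool.Agent.Helper58 Pool.Agent.Helper53.CL Function

variable {α β γ : Type} [Enc α] [Enc β] [Enc γ]

/-! ### logic -/

@[fun_prop] theorem ptf_decAnd {p q : γ → Prop} [DecidablePred p] [DecidablePred q]
    (hp : PTf (fun x => decide (p x))) (hq : PTf (fun x => decide (q x))) :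
    PTf (fun x => decide (p x ∧ q x)) :=
  (PTf.and hp hq).congr (fun x => by simp)

@[fun_prop] theorem ptf_decOr {p q : γ → Prop} [DecidablePred p] [DecidablePred q]
    (hp : PTf (fun x => decide (p x))) (hq : PTf (fun x => decide (q x))) :
    PTf (fun x => decide (p x ∨ q x)) :=
  (PTf.or hp hq).congr (fun x => by simp)

@[fun_prop] theorem ptf_decNot {p : γ → Prop} [DecidablePred p]
    (hp : PTf (fun x => decide (p x))) : PTf (fun x => decide (¬ p x)) :=
  (PTf.not hp).congr (fun x => by simp)

/-! ### arithmetic -/

@[fun_prop] theorem ptf_pred {n : γ → ℕ} (hn : PTf n) : PTf (fun x => n x - 1) := by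
  have : PTf (fun x => ncase (n x) 0 (fun k => k)) := by fun_prop
  exact this.congr (fun x => by cases n x <;> rfl)

lemma foldl_pred (m : ℕ) (l : List Unit) : l.foldl (fun a _ => a - 1) m = m - l.length := by
  induction l generalizing m with
  | nil => simp
  | cons a l ih => rw [List.foldl_cons, ih, List.length_cons]; omega

@[fun_prop] theorem ptf_sub {m n : γ → ℕ} (hm : PTf m) (hn : PTf n) : PTf (fun x => m x - n x) := by
  have := ptf_foldl_add (γ := γ) (l := fun x => List.replicate (n x) ()) (init := m)
    (step := fun _ a _ => a - 1) (K := fun _ => 0) (by fun_prop) hm (by fun_prop) (PB.const _) (by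
      intro x b a _
      rw [sz_nat, sz_nat]; omega)
  exact this.congr (fun x => by rw [foldl_pred, List.length_replicate])

@[fun_prop] theorem ptf_le {m n : γ → ℕ} (hm : PTf m) (hn : PTf n) :
    PTf (fun x => decide (m x ≤ n x)) := by
  have : PTf (fun x => decide (m x - n x = 0)) := by fun_prop
  exact this.congr (fun x => by simp [Nat.sub_eq_zero_iff_le])

@[fun_prop] theorem ptf_lt {m n : γ → ℕ} (hm : PTf m) (hn : PTf n) :
    PTf (fun x => decide (m x < n x)) := by
  have : PTf (fun x => decide (m x + 1 ≤ n x)) := by fun_prop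
  exact this.congr (fun x => rfl)

lemma card_div (m k : ℕ) (hk : 0 < k) :
    ((List.range m).filter (fun i => decide ((i + 1) * k ≤ m))).length = m / k := by
  rw [← List.countP_eq_length_filter]
  have h1 : ∀ i, decide ((i + 1) * k ≤ m) = decide (i < m / k) := by
    intro i
    congr 1
    rw [← Nat.le_div_iff_mul_le hk, Nat.succ_le_iff]
  simp only [h1]
  have h2 : ∀ (n a : ℕ), a ≤ n → (List.range n).countP (fun i => decide (i < a)) = a := by
    intro n
    induction n with
    | zero => intro a ha; simp; omega
    | succ n ih =>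
      intro a ha
      rw [List.range_succ, List.countP_append]
      by_cases h : a ≤ n
      · rw [ih a h]; simp [Nat.not_lt.2 h]
      · have : a = n + 1 := by omega
        subst this
        have h3 : (List.range n).countP (fun i => decide (i < n + 1)) = n := by
          rw [List.countP_eq_length.2, List.length_range]
          intro i hi
          simp only [List.mem_range] at hi
          simp; omega
        rw [h3]; simp
  exact h2 m (m / k) (Nat.div_le_self _ _)

theorem ptf_div {m : γ → ℕ} (hm : PTf m) (k : ℕ) (hk : 0 < k) : PTf (fun x => m x / k) := by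
  have : PTf (fun x => ((List.range (m x)).filter (fun i => decide ((i + 1) * k ≤ m x))).length) := by
    fun_prop
  exact this.congr (fun x => (card_div _ _ hk).symm)

theorem ptf_mod {m : γ → ℕ} (hm : PTf m) (k : ℕ) (hk : 0 < k) : PTf (fun x => m x % k) := by
  have h1 := ptf_div hm k hk
  have : PTf (fun x => m x - k * (m x / k)) := by fun_prop
  exact this.congr (fun x => by have := Nat.div_add_mod (m x) k; omega)

@[fun_prop] theorem ptf_div2 {m : γ → ℕ} (hm : PTf m) : PTf (fun x => m x / 2) := ptf_div hm 2 (by omega)
@[fun_prop] theorem ptf_mod2 {m : γ → ℕ} (hm : PTf m) : PTf (fun x => m x % 2) := ptf_mod hm 2 (by omega)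
@[fun_prop] theorem ptf_div4 {m : γ → ℕ} (hm : PTf m) : PTf (fun x => m x / 4) := ptf_div hm 4 (by omega)
@[fun_prop] theorem ptf_mod4 {m : γ → ℕ} (hm : PTf m) : PTf (fun x => m x % 4) := ptf_mod hm 4 (by omega)
@[fun_prop] theorem ptf_div6 {m : γ → ℕ} (hm : PTf m) : PTf (fun x => m x / 6) := ptf_div hm 6 (by omega)
@[fun_prop] theorem ptf_mod6 {m : γ → ℕ} (hm : PTf m) : PTf (fun x => m x % 6) := ptf_mod hm 6 (by omega)

@[fun_prop] theorem ptf_sq {m : γ → ℕ} (hm : PTf m) : PTf (fun x => m x ^ 2) := ptf_pow hm 2

/-! ### lists -/

@[fun_prop] theorem ptf_tail {l : γ → List α} (hl : PTf l) : PTf (fun x => (l x).tail) := by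
  have : PTf (fun x => lcase (l x) [] (fun _ t => t)) := by fun_prop
  exact this.congr (fun x => by cases l x <;> rfl)

omit [Enc α] in
lemma foldl_tail (m : List α) (l : List Unit) : l.foldl (fun a _ => a.tail) m = m.drop l.length := by
  induction l generalizing m with
  | nil => simp
  | cons a l ih =>
    rw [List.foldl_cons, ih, List.length_cons, ← List.drop_one, List.drop_drop, Nat.add_comm]

@[fun_prop] theorem ptf_drop {l : γ → List α} {n : γ → ℕ} (hl : PTf l) (hn : PTf n) :
    PTf (fun x => (l x).drop (n x)) := by
  have := ptf_foldl_add (γ := γ) (l := fun x => List.replicate (n x) ()) (init := l)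
    (step := fun _ a _ => a.tail) (K := fun _ => 0) (by fun_prop) hl (by fun_prop) (PB.const _) (by
      intro x b a _
      rw [← List.drop_one]
      exact sz_drop_le b 1)
  exact this.congr (fun x => by rw [foldl_tail, List.length_replicate])

@[fun_prop] theorem ptf_getD {l : γ → List α} {n : γ → ℕ} {d : γ → α} (hl : PTf l) (hn : PTf n)
    (hd' : PTf d) : PTf (fun x => (l x).getD (n x) (d x)) := by
  have : PTf (fun x => hd ((l x).drop (n x)) (d x)) := by fun_prop
  refine this.congr (fun x => ?_)
  rw [List.getD_eq_getElem?_getD, ← List.head?_drop]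
  cases (l x).drop (n x) <;> rfl

@[fun_prop] theorem ptf_sum {l : γ → List ℕ} (hl : PTf l) : PTf (fun x => (l x).sum) := by
  have : PTf (fun x => ((l x).flatMap (fun n => List.replicate n ())).length) := by fun_prop
  refine this.congr (fun x => ?_)
  rw [List.length_flatMap]
  simp

/-! ### binary digits -/

/-- one step of the conversion to binary -/
def bstep (s : ℕ × List Bool) : ℕ × List Bool :=
  if s.1 = 0 then s else (s.1 / 2, s.2 ++ [decide (s.1 % 2 = 1)])

lemma bits_half (m : ℕ) (hm : m ≠ 0) : m.bits = decide (m % 2 = 1) :: (m / 2).bits := by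
  rcases Nat.even_or_odd' m with ⟨c, rfl | rfl⟩
  · have hc : c ≠ 0 := by rintro rfl; simp at hm
    rw [Nat.bit0_bits c hc]
    congr 1
    · simp
    · congr 1; omega
  · rw [Nat.bit1_bits c]
    congr 1
    · simp
    · congr 1; omega

lemma bstep_iter : ∀ (l : List Unit) (m : ℕ) (w : List Bool), m ≤ l.length →
    (l.foldl (fun s _ => bstep s) (m, w)).2 = w ++ m.bits := by
  intro l
  induction l with
  | nil => intro m w hm; simp at hm; subst hm; simp
  | cons a l ih =>
    intro m w hm
    rw [List.foldl_cons]
    rw [List.length_cons] at hm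
    unfold bstep
    by_cases h : m = 0
    · subst h
      simp only [if_true]
      exact ih 0 w (by omega)
    · simp only [if_neg h]
      have := ih (m / 2) (w ++ [decide (m % 2 = 1)]) (by omega)
      unfold bstep at this
      rw [this, bits_half m h]
      simp

@[fun_prop] theorem ptf_nbits {n : γ → ℕ} (hn : PTf n) : PTf (fun x => (n x).bits) := by
  have := ptf_foldl_add (γ := γ) (l := fun x => List.replicate (n x) ())
    (init := fun x => (n x, ([] : List Bool)))
    (step := fun _ s _ => bstep s) (K := fun _ => 10) (by fun_prop) (by fun_prop)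
    (by unfold bstep; fun_prop) (PB.const _) (by
      rintro x ⟨m, w⟩ a _
      unfold bstep
      split_ifs
      · omega
      · rw [sz_pair, sz_pair, sz_nat, sz_nat]
        have h1 := sz_append w [decide ((m, w).1 % 2 = 1)]
        rw [sz_lcons, sz_lnil] at h1
        have h2 := sz_bool (decide ((m, w).1 % 2 = 1))
        simp only at h1 h2 ⊢
        omega)
  refine (PTf.snd this).congr (fun x => ?_)
  rw [bstep_iter _ _ _ (by simp)]
  simp

end Pool.Agent.Helper52.Grid
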